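import Pool.Agent.H88.E7.Defs
import Pool.Agent.H88.E7.Hom
import Pool.Agent.H16.RB.T2b

/-!
# EV (MP_460e77_co, helper88): `|p G| = p ^ s`, `r = 2 s`, is impossible: definitions

`f : H → K` planar, `|H| = |K| = p ^ (2 s)`, `G = H × K`, `gr f x = (x, f x)`, `sl p f v` = the `x` with
`p • gr f x = v`, `PG p H K` = `p G`, the setting `D2` (all from `Pool/Agent/H16/RB`).
-/

set_option autoImplicit false

namespace Pool.Agent.H88.EV

open Finset Pool.Agent.H16.RB Pool.Agent.H88.Pl
open scoped Classical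

/-- `l` is constant on the points `y x`, `x ∈ S` -/
def Cst {p : ℕ} {X G : Type*} [AddCommGroup G] (y : X → G) (S : Finset X) (l : G →+ ZMod p) : Prop :=
  ∀ x ∈ S, ∀ x' ∈ S, l (y x) = l (y x')

/-- `l` is equidistributed on the points `y x`, `x ∈ S` -/
def Equi {p : ℕ} {X G : Type*} [AddCommGroup G] (y : X → G) (S : Finset X) (l : G →+ ZMod p) :
    Prop :=
  ∀ c : ZMod p, p * (S.filter fun x => l (y x) = c).card = S.card

/-- `l` vanishes on the elements of order `p` -/
def Van {p : ℕ} {G : Type*} [AddCommGroup G] (l : G →+ ZMod p) : Prop := ∀ g : G, p • g = 0 → l g = 0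

end Pool.Agent.H88.EV
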