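import Pool.Agent.H88.EV.Defs

/-!
# EV Cnt (MP_460e77_co, helper88): counting functionals and pairs

`pair_sum`: count the triples `(x, x', l)`, `x, x' ∈ S`, `l (y x) = l (y x')`.  If `(x, x') ∈ P2` all `l` count, otherwise the homomorphism `l ↦ l (y x - y x')` is not zero and exactly `|Dual| / p` of the `l` count.
`card_cst`: apply `pair_sum` with `|P2| = |S| = n` (all classes are singletons): a constant `l` has `∑ N ^ 2 = n ^ 2`, an equidistributed one `p ∑ N ^ 2 = n ^ 2`:
`Λ p n ^ 2 + (D - Λ) n ^ 2 = D (n ^ 2 + (p - 1) n)`, so `Λ n = D`.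
`equi_ge`: apply `pair_sum` to a set `S` with at least `E` equidistributed functionals (`p ∑ N ^ 2 = |S| ^ 2`, for the others `∑ N ^ 2 ≤ |S| ^ 2`): `D (|S| ^ 2 + (p - 1) |P2|) ≤ E |S| ^ 2 + (D - E) p |S| ^ 2`.
-/

set_option autoImplicit false

namespace Pool.Agent.H88.EV

open Finset Pool.Agent.H16.RB Pool.Agent.H88.Pl Pool.Agent.H88.E7
open scoped Classical

private theorem Cnt_half {p : ℕ} [Fact p.Prime] {G : Type*} [AddCommGroup G] [Finite G]
    [Fintype (G →+ ZMod p)] {g : G} (h : ∃ l : G →+ ZMod p, l g ≠ 0) :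
    p * ((univ : Finset (G →+ ZMod p)).filter fun l => l g = 0).card =
      Fintype.card (G →+ ZMod p) := by
  have hpp : p.Prime := Fact.out
  let φ : (G →+ ZMod p) →+ ZMod p := AddMonoidHom.eval g
  have hφ : ∀ l, φ l = l g := fun l => rfl
  have h1 : Nat.card φ.ker * φ.ker.index = Nat.card (G →+ ZMod p) := AddSubgroup.card_mul_index _
  rw [AddSubgroup.index_ker] at h1
  have h2 : Nat.card φ.range ∣ p := by
    have h := AddSubgroup.card_addSubgroup_dvd_card φ.range
    rwa [Nat.card_zmod] at h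
  have h3 : Nat.card φ.range ≠ 1 := by
    intro h3
    obtain ⟨l, hl⟩ := h
    have h4 : φ.range = ⊥ := AddSubgroup.card_eq_one.1 h3
    have h5 : φ l ∈ φ.range := ⟨l, rfl⟩
    rw [h4, AddSubgroup.mem_bot, hφ] at h5
    exact hl h5
  have h4 : Nat.card φ.range = p := ((Nat.dvd_prime hpp).1 h2).resolve_left h3
  have h5 : Nat.card φ.ker = ((univ : Finset (G →+ ZMod p)).filter fun l => l g = 0).card := by
    rw [Nat.card_eq_fintype_card, Fintype.card_subtype]
    congr 1
    ext l
    rw [mem_filter, mem_filter]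
    exact Iff.rfl
  rw [h4, h5, Nat.card_eq_fintype_card] at h1
  rw [mul_comm]
  exact h1

private theorem Cnt_sq {X Y : Type*} [Fintype Y] [DecidableEq Y] (S : Finset X) (g : X → Y) :
    ∑ c : Y, (S.filter fun x => g x = c).card ^ 2 =
      ((S ×ˢ S).filter fun z => g z.1 = g z.2).card := by
  rw [Finset.card_eq_sum_card_fiberwise (f := fun z : X × X => g z.1) (t := univ)
    (fun _ _ => mem_coe.2 (mem_univ _))]
  refine Finset.sum_congr rfl fun c _ => ?_
  rw [sq, ← Finset.card_product]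
  congr 1
  ext z
  simp only [mem_product, mem_filter]
  constructor
  · rintro ⟨⟨h1, h2⟩, h3, h4⟩
    exact ⟨⟨⟨h1, h3⟩, h2.trans h4.symm⟩, h2⟩
  · rintro ⟨⟨⟨h1, h3⟩, h5⟩, h2⟩
    exact ⟨⟨h1, h2⟩, h3, h5.symm.trans h2⟩

theorem pair_sum {p : ℕ} [Fact p.Prime] {X G : Type*} [AddCommGroup G] [Finite G]
    [Fintype (G →+ ZMod p)] (y : X → G) (S : Finset X) :
    p * ∑ l : G →+ ZMod p, ∑ c : ZMod p, (S.filter fun x => l (y x) = c).card ^ 2 =
      Fintype.card (G →+ ZMod p) * (S.card ^ 2 + (p - 1) * (P2 p y S).card) := by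
  have hpp : p.Prime := Fact.out
  have h1 : ∀ l : G →+ ZMod p, ∑ c : ZMod p, (S.filter fun x => l (y x) = c).card ^ 2 =
      ∑ z ∈ S ×ˢ S, if l (y z.1) = l (y z.2) then 1 else 0 := by
    intro l
    rw [Cnt_sq S fun x => l (y x), card_filter]
  rw [sum_congr rfl fun l _ => h1 l, sum_comm, mul_sum]
  have h2 : ∀ z ∈ S ×ˢ S, p * (∑ l : G →+ ZMod p, if l (y z.1) = l (y z.2) then 1 else 0) =
      Fintype.card (G →+ ZMod p) *
        (1 + (p - 1) * if (∀ l : G →+ ZMod p, l (y z.1) = l (y z.2)) then 1 else 0) := by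
    intro z _
    rw [← card_filter]
    by_cases hz : ∀ l : G →+ ZMod p, l (y z.1) = l (y z.2)
    · rw [if_pos hz, mul_one, filter_true_of_mem fun l _ => hz l, card_univ, mul_comm]
      congr 1
      have := hpp.one_lt
      omega
    · rw [if_neg hz, mul_zero, add_zero, mul_one]
      push Not at hz
      obtain ⟨l, hl⟩ := hz
      have h3 := Cnt_half (p := p) (g := y z.1 - y z.2) ⟨l, by
        rw [map_sub]; exact sub_ne_zero.2 hl⟩
      rw [← h3]
      congr 2
      ext l
      rw [mem_filter, mem_filter, map_sub, sub_eq_zero]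
  rw [sum_congr rfl h2, ← mul_sum, sum_add_distrib, ← mul_sum, ← card_filter, P2,
    sum_const, card_product, smul_eq_mul, mul_one, sq]
  congr

private theorem Cnt_P2 {p : ℕ} {X G : Type*} [AddCommGroup G] (y : X → G) (S : Finset X)
    (hc : ∀ x ∈ S, (cls p y S (y x)).card = 1) : (P2 p y S).card = S.card := by
  have h : P2 p y S = S.diag := by
    ext z
    rw [P2, mem_filter, mem_product, mem_diag]
    constructor
    · rintro ⟨⟨h1, h2⟩, h3⟩
      refine ⟨h1, ?_⟩
      obtain ⟨a, ha⟩ := card_eq_one.1 (hc z.2 h2)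
      have e1 : z.1 ∈ cls p y S (y z.2) := by
        rw [cls, mem_filter]
        exact ⟨h1, h3⟩
      have e2 : z.2 ∈ cls p y S (y z.2) := by
        rw [cls, mem_filter]
        exact ⟨h2, fun _ => rfl⟩
      rw [ha, mem_singleton] at e1 e2
      rw [e1, e2]
    · rintro ⟨h1, h2⟩
      refine ⟨⟨h1, ?_⟩, fun l => ?_⟩
      · rw [← h2]; exact h1
      · rw [h2]
  rw [h, diag_card]

private theorem Cnt_cst {p : ℕ} [Fact p.Prime] {X G : Type*} [AddCommGroup G] (y : X → G)
    (S : Finset X) (l : G →+ ZMod p) (h : Cst y S l) :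
    ∑ c : ZMod p, (S.filter fun x => l (y x) = c).card ^ 2 = S.card ^ 2 := by
  rw [Cnt_sq S fun x => l (y x), filter_true_of_mem, card_product, sq]
  intro z hz
  rw [mem_product] at hz
  exact h _ hz.1 _ hz.2

private theorem Cnt_equi {p : ℕ} [Fact p.Prime] {X G : Type*} [AddCommGroup G] (y : X → G)
    (S : Finset X) (l : G →+ ZMod p) (h : Equi y S l) :
    p * ∑ c : ZMod p, (S.filter fun x => l (y x) = c).card ^ 2 = S.card ^ 2 := by
  have hpp : p.Prime := Fact.out
  have h1 : p * (p * ∑ c : ZMod p, (S.filter fun x => l (y x) = c).card ^ 2) =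
      p * S.card ^ 2 := by
    rw [mul_sum, mul_sum]
    have h2 : ∀ c : ZMod p, p * (p * (S.filter fun x => l (y x) = c).card ^ 2) = S.card ^ 2 := by
      intro c
      rw [← h c]
      ring
    rw [sum_congr rfl fun c _ => h2 c, sum_const, card_univ, ZMod.card, smul_eq_mul]
  exact Nat.eq_of_mul_eq_mul_left hpp.pos h1

private theorem Cnt_le {p : ℕ} [Fact p.Prime] {X G : Type*} [AddCommGroup G] (y : X → G)
    (S : Finset X) (l : G →+ ZMod p) :
    ∑ c : ZMod p, (S.filter fun x => l (y x) = c).card ^ 2 ≤ S.card ^ 2 := by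
  rw [Cnt_sq S fun x => l (y x), sq, ← card_product]
  exact card_filter_le _ _

theorem card_cst {p s : ℕ} [Fact p.Prime] {X G : Type*} [AddCommGroup G] [Finite G]
    [Fintype (G →+ ZMod p)] (y : X → G) (S : Finset X) (hS : S.card = p ^ s)
    (hc : ∀ x ∈ S, (cls p y S (y x)).card = 1)
    (hd : ∀ l : G →+ ZMod p, Cst y S l ∨ Equi y S l) :
    ((univ : Finset (G →+ ZMod p)).filter fun l => Cst y S l).card * p ^ s =
      Fintype.card (G →+ ZMod p) := by
  have hpp : p.Prime := Fact.out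
  have h1 := pair_sum (p := p) y S
  rw [Cnt_P2 y S hc, hS] at h1
  have h2 : p * ∑ l : G →+ ZMod p, ∑ c : ZMod p, (S.filter fun x => l (y x) = c).card ^ 2 =
      ∑ l : G →+ ZMod p, ((p ^ s) ^ 2 + (p - 1) * (p ^ s) ^ 2 * if Cst y S l then 1 else 0) := by
    rw [mul_sum]
    refine sum_congr rfl fun l _ => ?_
    by_cases h : Cst y S l
    · rw [if_pos h, Cnt_cst y S l h, hS, mul_one]
      obtain ⟨q, hq⟩ : ∃ q, p = q + 1 := ⟨p - 1, by have := hpp.one_lt; omega⟩
      rw [show p - 1 = q by omega]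
      conv_lhs => rw [show p * (p ^ s) ^ 2 = (q + 1) * (p ^ s) ^ 2 by rw [← hq]]
      ring
    · rw [if_neg h, Cnt_equi y S l ((hd l).resolve_left h), hS, mul_zero, add_zero]
  rw [h2, sum_add_distrib, sum_const, ← mul_sum, ← card_filter, card_univ, smul_eq_mul,
    mul_add] at h1
  have h3 := Nat.add_left_cancel h1
  have hp1 : 0 < p - 1 := by have := hpp.one_lt; omega
  have hps : 0 < p ^ s := pow_pos hpp.pos _
  have h4 : ((p - 1) * p ^ s) * (((univ : Finset (G →+ ZMod p)).filter fun l => Cst y S l).card *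
      p ^ s) = ((p - 1) * p ^ s) * Fintype.card (G →+ ZMod p) := by
    calc ((p - 1) * p ^ s) * (((univ : Finset (G →+ ZMod p)).filter fun l => Cst y S l).card *
        p ^ s) = (p - 1) * (p ^ s) ^ 2 *
          ((univ : Finset (G →+ ZMod p)).filter fun l => Cst y S l).card := by ring
      _ = Fintype.card (G →+ ZMod p) * ((p - 1) * p ^ s) := h3
      _ = ((p - 1) * p ^ s) * Fintype.card (G →+ ZMod p) := Nat.mul_comm _ _
  exact Nat.eq_of_mul_eq_mul_left (Nat.mul_pos hp1 hps) h4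

theorem equi_ge {p : ℕ} [Fact p.Prime] {X G : Type*} [AddCommGroup G] [Finite G]
    [Fintype (G →+ ZMod p)] (y : X → G) (S : Finset X) (A : Finset (G →+ ZMod p))
    (hA : ∀ l ∈ A, Equi y S l) :
    A.card * S.card ^ 2 + Fintype.card (G →+ ZMod p) * (P2 p y S).card ≤
      Fintype.card (G →+ ZMod p) * S.card ^ 2 := by
  have hpp : p.Prime := Fact.out
  have h1 := pair_sum (p := p) y S
  have h2 : p * ∑ l : G →+ ZMod p, ∑ c : ZMod p, (S.filter fun x => l (y x) = c).card ^ 2 +
      ∑ l : G →+ ZMod p, ((p - 1) * S.card ^ 2 * if l ∈ A then 1 else 0) ≤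
      ∑ l : G →+ ZMod p, p * S.card ^ 2 := by
    rw [mul_sum, ← sum_add_distrib]
    refine sum_le_sum fun l _ => ?_
    by_cases h : l ∈ A
    · rw [if_pos h, Cnt_equi y S l (hA l h), mul_one]
      obtain ⟨q, hq⟩ : ∃ q, p = q + 1 := ⟨p - 1, by have := hpp.one_lt; omega⟩
      rw [show p - 1 = q by omega, hq]
      apply le_of_eq
      ring
    · rw [if_neg h, mul_zero, add_zero]
      exact Nat.mul_le_mul_left _ (Cnt_le y S l)
  have h3 : ((univ : Finset (G →+ ZMod p)).filter fun l => l ∈ A).card = A.card := by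
    congr 1
    ext l
    rw [mem_filter]
    exact ⟨fun h => h.2, fun h => ⟨mem_univ _, h⟩⟩
  rw [h1, ← mul_sum, ← card_filter, h3, sum_const, card_univ, smul_eq_mul] at h2
  obtain ⟨q, hq⟩ : ∃ q, p = q + 1 := ⟨p - 1, by have := hpp.one_lt; omega⟩
  have hq0 : 0 < q := by have := hpp.one_lt; omega
  rw [show p - 1 = q by omega] at h2
  have h4 : q * (A.card * S.card ^ 2 + Fintype.card (G →+ ZMod p) * (P2 p y S).card) ≤
      q * (Fintype.card (G →+ ZMod p) * S.card ^ 2) := by
    have h5 : p * S.card ^ 2 = (q + 1) * S.card ^ 2 := by rw [← hq]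
    rw [h5] at h2
    nlinarith
  exact Nat.le_of_mul_le_mul_left h4 hq0

end Pool.Agent.H88.EV
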