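import Pool.Agent.H88.EV.Defs
import Pool.Agent.H88.Pl.AR
import Pool.Agent.H88.Pl.Planar

/-!
# EV Ar (MP_460e77_co, helper88): fibres of a functional of `K` composed with a planar function, `|H| = p ^ (2 s)`

`ψ : K →+ ZMod p` not zero.  For every primitive `p`-th root `ξ` the sum `∑_x ξ ^ (ψ (f x)).val` has `‖·‖ ^ 2 = p ^ (2 s)` (`planar_char`, see the use in Pool/Agent/H88/E7/Gs.lean), so by `arith` (`e = 1`, `r = 2 s`) it is `ε ξ ^ j gs ^ (2 s)`, and `gs ^ 2 = (-1) ^ ((p - 1) / 2) p` (`gs_sq`):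
`∑_c A_c ξ ^ c = ε' p ^ s ξ ^ j` for all primitive `ξ`, `A_c = #{x | ψ (f x) = c}`.  Invert: `p A_c = ∑_{a} ξ ^ (- a c) ∑_x ξ ^ (a ψ (f x)) = p ^ (2 s) + ε' p ^ s ∑_{a ≠ 0} ξ ^ (a (j - c)) = p ^ (2 s) + ε' p ^ s (p [c = j] - 1)`.
-/

set_option autoImplicit false

namespace Pool.Agent.H88.EV

open Finset Pool.Agent.H16.RB Pool.Agent.H88.Pl
open scoped Classical

theorem fib_form {p s : ℕ} [Fact p.Prime] (hp : p ≠ 2) {H K : Type*} [AddCommGroup H]
    [AddCommGroup K] [Fintype H] [Fintype K] (hH : Fintype.card H = p ^ (2 * s)) (f : H → K)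
    (hf : IsPlanar f) (ψ : K →+ ZMod p) (hψ : ∃ k : K, ψ k ≠ 0) :
    ∃ (ε : ℤ) (j : ZMod p), (ε = 1 ∨ ε = -1) ∧ ∀ c : ZMod p,
      (p : ℤ) * ((univ.filter fun x : H => ψ (f x) = c).card : ℤ) =
        (p : ℤ) ^ (2 * s) + ε * (p : ℤ) ^ s * ((if c = j then (p : ℤ) else 0) - 1) := by
  have hpp : p.Prime := Fact.out
  have hp0 : p ≠ 0 := hpp.ne_zero
  have hne : NeZero p := ⟨hp0⟩
  have hnorm : ∀ ξ : ℂ, IsPrimitiveRoot ξ (p ^ 1) →
      ‖∑ x : H, ξ ^ (ψ (f x)).val‖ ^ 2 = (p : ℝ) ^ (2 * s) := by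
    intro ξ hξ
    rw [pow_one] at hξ
    have h1 := planar_char f hf (fun k => ew ξ (ψ k))
      (fun x y => by
        show ew ξ (ψ (x + y)) = ew ξ (ψ x) * ew ξ (ψ y)
        rw [← ew_add hξ.pow_eq_one, ← map_add])
      (fun x => norm_ew hξ.pow_eq_one _)
      (by
        obtain ⟨k, hk⟩ := hψ
        exact ⟨k, fun h => hk ((ew_eq_one_iff hξ _).1 h)⟩)
      (fun _ => 1) (fun _ _ => by rw [mul_one]) (fun _ => norm_one)
    rw [hH] at h1
    simp only [mul_one] at h1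
    have h2 : ∑ x : H, ξ ^ (ψ (f x)).val = ∑ x, ew ξ (ψ (f x)) := rfl
    rw [h2, h1]
    push_cast
    rfl
  obtain ⟨ε, j, hε, hj⟩ := arith hp (e := 1) le_rfl (2 * s) (fun x : H => (ψ (f x)).val) hnorm
  obtain ⟨κ, hκ⟩ : ∃ κ : ℤ, κ = ((-1) ^ ((p - 1) / 2)) ^ s := ⟨_, rfl⟩
  have hκ1 : κ = 1 ∨ κ = -1 := by
    rw [hκ, ← pow_mul]
    exact neg_one_pow_eq_or ℤ _
  have hsum : ∀ ξ : ℂ, IsPrimitiveRoot ξ p →
      ∑ x : H, ξ ^ (ψ (f x)).val = ((κ * ε : ℤ) : ℂ) * (p : ℂ) ^ s * ξ ^ j := by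
    intro ξ hξ
    have h1 := hj ξ (by rw [pow_one]; exact hξ)
    rw [Nat.sub_self, pow_zero, pow_one, pow_mul, gs_sq hp hξ, mul_pow] at h1
    rw [h1, hκ]
    push_cast
    ring
  refine ⟨κ * ε, (j : ZMod p), ?_, ?_⟩
  · rcases hκ1 with h | h <;> rcases hε with h' | h' <;> simp [h, h']
  intro c
  obtain ⟨ξ, hξ⟩ : ∃ ξ : ℂ, IsPrimitiveRoot ξ p := ⟨_, Complex.isPrimitiveRoot_exp _ hp0⟩
  obtain ⟨χ, hχ⟩ : ∃ χ : AddChar (ZMod p) ℂ, χ = AddChar.zmodChar p hξ.pow_eq_one := ⟨_, rfl⟩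
  have hprim : χ.IsPrimitive := by
    rw [hχ]
    exact AddChar.zmodChar_primitive_of_primitive_root p hξ
  have hχv : ∀ z : ZMod p, χ z = ξ ^ z.val := by
    intro z
    rw [hχ, AddChar.zmodChar_apply]
  have hχn : ∀ (k z : ZMod p), χ (k * z) = (ξ ^ k.val) ^ z.val := by
    intro k z
    have h1 : k * z = ((k.val * z.val : ℕ) : ZMod p) := by
      rw [Nat.cast_mul, ZMod.natCast_zmod_val, ZMod.natCast_zmod_val]
    rw [h1, hχ, AddChar.zmodChar_apply', pow_mul]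
  have hχj : ∀ (k : ZMod p), χ (k * (j : ZMod p)) = (ξ ^ k.val) ^ j := by
    intro k
    have h1 : k * (j : ZMod p) = ((k.val * j : ℕ) : ZMod p) := by
      rw [Nat.cast_mul, ZMod.natCast_zmod_val]
    rw [h1, hχ, AddChar.zmodChar_apply', pow_mul]
  have hprimk : ∀ k : ZMod p, k ≠ 0 → IsPrimitiveRoot (ξ ^ k.val) p := by
    intro k hk
    refine hξ.pow_of_coprime _ ?_
    refine Nat.Coprime.symm ((Nat.Prime.coprime_iff_not_dvd hpp).2 fun h => ?_)
    have h2 : k.val = 0 := Nat.eq_zero_of_dvd_of_lt h (ZMod.val_lt k)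
    exact hk ((ZMod.val_eq_zero k).1 h2)
  -- orthogonality
  have horth : ∀ b : ZMod p, ∑ k : ZMod p, χ (k * b) = if b = 0 then (p : ℂ) else 0 := by
    intro b
    rw [AddChar.sum_mulShift b hprim, ZMod.card]
    split_ifs
    · rfl
    · simp
  have hL : (p : ℂ) * ((univ.filter fun x : H => ψ (f x) = c).card : ℂ) =
      ∑ x : H, ∑ k : ZMod p, χ (k * (ψ (f x) - c)) := by
    simp_rw [horth, sub_eq_zero]
    rw [← sum_filter, sum_const, nsmul_eq_mul, mul_comm]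
  have hR : ∀ k : ZMod p, ∑ x : H, χ (k * (ψ (f x) - c)) =
      if k = 0 then (p : ℂ) ^ (2 * s) else
        ((κ * ε : ℤ) : ℂ) * (p : ℂ) ^ s * χ (k * ((j : ZMod p) - c)) := by
    intro k
    split_ifs with hk
    · simp only [hk, zero_mul, AddChar.map_zero_eq_one, sum_const, card_univ, nsmul_eq_mul,
        mul_one]
      rw [hH]
      push_cast
      rfl
    · have h1 : ∀ x : H, χ (k * (ψ (f x) - c)) = χ (-(k * c)) * (ξ ^ k.val) ^ (ψ (f x)).val := by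
        intro x
        rw [← hχn, ← AddChar.map_add_eq_mul]
        congr 1
        ring
      simp_rw [h1]
      rw [← mul_sum, hsum _ (hprimk k hk), ← hχj]
      have h2 : χ (k * ((j : ZMod p) - c)) = χ (-(k * c)) * χ (k * (j : ZMod p)) := by
        rw [← AddChar.map_add_eq_mul]
        congr 1
        ring
      rw [h2]
      ring
  have hmain : (p : ℂ) * ((univ.filter fun x : H => ψ (f x) = c).card : ℂ) =
      (p : ℂ) ^ (2 * s) + ((κ * ε : ℤ) : ℂ) * (p : ℂ) ^ s *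
        ((if c = (j : ZMod p) then (p : ℂ) else 0) - 1) := by
    rw [hL, sum_comm]
    simp_rw [hR]
    rw [← add_sum_erase _ _ (mem_univ (0 : ZMod p)), if_pos rfl]
    have h1 : ∑ k ∈ univ.erase (0 : ZMod p), (if k = 0 then (p : ℂ) ^ (2 * s) else
        ((κ * ε : ℤ) : ℂ) * (p : ℂ) ^ s * χ (k * ((j : ZMod p) - c))) =
        ((κ * ε : ℤ) : ℂ) * (p : ℂ) ^ s *
          ∑ k ∈ univ.erase (0 : ZMod p), χ (k * ((j : ZMod p) - c)) := by
      rw [mul_sum]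
      refine sum_congr rfl fun k hk => ?_
      rw [if_neg (ne_of_mem_erase hk)]
    rw [h1]
    have h2 := horth ((j : ZMod p) - c)
    rw [← add_sum_erase _ _ (mem_univ (0 : ZMod p)), zero_mul, AddChar.map_zero_eq_one] at h2
    have h3 : ∑ k ∈ univ.erase (0 : ZMod p), χ (k * ((j : ZMod p) - c)) =
        (if (j : ZMod p) - c = 0 then (p : ℂ) else 0) - 1 := by
      rw [← h2]
      ring
    rw [h3]
    have h4 : ((j : ZMod p) - c = 0) ↔ (c = (j : ZMod p)) := by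
      rw [sub_eq_zero]
      exact eq_comm
    rw [if_congr h4 rfl rfl]
  have hif : (((if c = (j : ZMod p) then (p : ℤ) else 0 : ℤ)) : ℂ) =
      if c = (j : ZMod p) then (p : ℂ) else 0 := by
    split_ifs
    · push_cast
      rfl
    · simp
  have hfin : (((p : ℤ) * ((univ.filter fun x : H => ψ (f x) = c).card : ℤ) : ℤ) : ℂ) =
      (((p : ℤ) ^ (2 * s) + (κ * ε) * (p : ℤ) ^ s *
        ((if c = (j : ZMod p) then (p : ℤ) else 0) - 1) : ℤ) : ℂ) := by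
    push_cast
    push_cast at hmain hif
    rw [hmain]
  exact_mod_cast hfin

end Pool.Agent.H88.EV
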