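import Pool.Agent.H88.EV.Lin
import Pool.Agent.H88.EV.Cnt

/-!
# EV Ex2 (MP_460e77_co, helper88): `|p G| = p ^ s`, `r = 2 s`, implies `p ^ 2 G = 0`

Part (G) of the note (kind wave3, helper88).  `C` = the `g ∈ p G` with `p g = 0`; if `p ^ 2 G ≠ 0` then `|C| ≤ p ^ (s - 1)`, `p |C| ≤ p ^ s`.  Pairs `x ≠ x'` with `gr f x - gr f x' ∈ C` (same slice, same class): `#{g ∈ C | g.1 ≠ 0} < |C|` (`pair_count`).
All slices kill `s (p - 1) - s` (`sl_kills`).
`flat`: a slice with `p ^ s` points and singleton classes: by `dich`, `card_cst` the functionals constant on it are a subgroup `Λ` of `Dual` of index `p ^ s`.  Fix `x1 ≠ x2 ∈ S`, `d = gr f x1 - gr f x2`.  The map `S → Dual/Λ-dual`, `x ↦ (l ↦ l (gr f x - gr f x2))`, is injective into the homomorphisms `Dual →+ ZMod p` which vanish on `Λ`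
(at most `|Dual / Λ| = p ^ s` of them), so it is onto, and for every `x ∈ S` there is `x' ∈ S` with `l (gr f x' - gr f x) = l d` for all `l`, i.e. `gr f x' - gr f x ∈ d + p G` (`sep`), and it is killed by `p`.  These `p ^ s` pairs have different differences `g` (planar, `x' ≠ x`), all `g - d ∈ C`:
`p ^ s ≤ |C|`, impossible if `|C| < p ^ s`.
`no_ex`: so every slice with at most `p ^ s` points has all classes divisible by `p` (`cls_dvd`, `cls_dvd'`), `(p - 1) |S_v| ≤` its collisions (`coll_ge` in T2b, collisions `coll`); so no slice has exactly `p ^ s` points, and the small ones have together at most `p ^ (s - 1)` points.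
`∑ |S_v| = p ^ (2 s)`, `∑ |S_v| ^ 2 = p ^ (2 s) + p ^ (3 s) - |K[p]|` (`|G[p]| = p ^ (4 s) / p ^ s`): `∑ (|S_v| - p ^ s) ^ 2 < p ^ (2 s)`, so at most one slice is small (two small ones give at least `2 p ^ (2 s) - 2 p ^ (2 s - 1)`); all others have at least `p ^ s + p` points (`p ∣ |S_v|`): the sum is larger than `p ^ (2 s)`.
-/

set_option autoImplicit false

namespace Pool.Agent.H88.EV

open Finset Pool.Agent.H16.RB Pool.Agent.H88.Pl Pool.Agent.H88.E7
open scoped Classical

variable {p s : ℕ} [Fact p.Prime] {H K : Type*} [AddCommGroup H] [AddCommGroup K] [Fintype H]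
  [Fintype K] {f : H → K}

/-- in a set of `p ^ s` points on which every functional is constant or equidistributed the points are
closed under addition, modulo functionals -/
private theorem Ex2_closed {X G : Type*} [AddCommGroup G] [Finite G] (y : X → G) (S : Finset X)
    (hn : S.card = p ^ s) (hc : ∀ x ∈ S, (cls p y S (y x)).card = 1)
    (hd : ∀ l : G →+ ZMod p, Cst y S l ∨ Equi y S l) (x1 x2 : X) (hx1 : x1 ∈ S) (hx2 : x2 ∈ S)
    (x : X) (hx : x ∈ S) : ∃ x' ∈ S, ∀ l : G →+ ZMod p, l (y x' - y x) = l (y x1 - y x2) := by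
  have hpp : p.Prime := Fact.out
  have hfin : Finite (G →+ ZMod p) := DFunLike.finite _
  have : Fintype (G →+ ZMod p) := Fintype.ofFinite _
  let Λ : AddSubgroup (G →+ ZMod p) :=
    { carrier := {l | Cst y S l}
      zero_mem' := fun a _ b _ => rfl
      add_mem' := by
        intro l l' h h' a ha b hb
        rw [AddMonoidHom.add_apply, AddMonoidHom.add_apply, h a ha b hb, h' a ha b hb]
      neg_mem' := by
        intro l h a ha b hb
        rw [AddMonoidHom.neg_apply, AddMonoidHom.neg_apply, h a ha b hb] }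
  have hmem : ∀ l, l ∈ Λ ↔ Cst y S l := fun l => Iff.rfl
  have h1 := card_cst y S hn hc hd
  have h2 : Nat.card Λ = ((univ : Finset (G →+ ZMod p)).filter fun l => Cst y S l).card := by
    apply Nat.subtype_card
    intro l
    simp only [mem_filter, mem_univ, true_and]
    exact (hmem l).symm
  rw [← h2, ← Nat.card_eq_fintype_card] at h1
  have h3 := AddSubgroup.card_eq_card_quotient_mul_card_addSubgroup Λ
  have hΛ : 0 < Nat.card Λ := Nat.card_pos
  have h4 : Nat.card ((G →+ ZMod p) ⧸ Λ) = p ^ s := by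
    refine Nat.eq_of_mul_eq_mul_right hΛ ?_
    rw [← h3, ← h1, mul_comm]
  have h5 := card_hom (p := p) (G := (G →+ ZMod p) ⧸ Λ)
  have h6 : 0 < Nat.card (Set.range fun g : (G →+ ZMod p) ⧸ Λ => p • g) := Nat.card_pos
  have h7 : Nat.card (((G →+ ZMod p) ⧸ Λ) →+ ZMod p) ≤ p ^ s := by
    rw [← h4, ← h5]
    exact Nat.le_mul_of_pos_right _ h6
  have hker : ∀ a ∈ S, Λ ≤ ((AddMonoidHom.eval (y a - y x2) :
      (G →+ ZMod p) →+ ZMod p)).ker := by
    intro a ha l hl
    rw [AddMonoidHom.mem_ker, AddMonoidHom.eval_apply_apply, map_sub,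
      (hmem l).1 hl a ha x2 hx2, sub_self]
  let ev : S → (((G →+ ZMod p) ⧸ Λ) →+ ZMod p) := fun a =>
    QuotientAddGroup.lift Λ (AddMonoidHom.eval (y a.1 - y x2)) (hker a.1 a.2)
  have hev : ∀ (a : S) (l : G →+ ZMod p), ev a (QuotientAddGroup.mk l) = l (y a.1 - y x2) :=
    fun a l => rfl
  have hinj : Function.Injective ev := by
    intro a b hab
    have h8 : ∀ l : G →+ ZMod p, l (y a.1) = l (y b.1) := by
      intro l
      have h9 := DFunLike.congr_fun hab (QuotientAddGroup.mk l)
      rw [hev, hev, map_sub, map_sub] at h9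
      exact sub_left_injective h9
    obtain ⟨c, hcc⟩ := card_eq_one.1 (hc b.1 b.2)
    have h10 : a.1 ∈ cls p y S (y b.1) := by
      simp only [cls, mem_filter]
      exact ⟨a.2, h8⟩
    have h11 : b.1 ∈ cls p y S (y b.1) := by
      simp only [cls, mem_filter]
      exact ⟨b.2, fun _ => trivial⟩
    rw [hcc, mem_singleton] at h10 h11
    exact Subtype.ext (h10.trans h11.symm)
  have : Finite (((G →+ ZMod p) ⧸ Λ) →+ ZMod p) := DFunLike.finite _
  have hsurj : Function.Surjective ev := by
    refine (hinj.bijective_of_nat_card_le ?_).2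
    have h8 : Nat.card S = p ^ s := by
      rw [Nat.card_eq_fintype_card, Fintype.card_coe, hn]
    rw [h8]
    exact h7
  obtain ⟨a, ha⟩ := hsurj (ev ⟨x, hx⟩ + ev ⟨x1, hx1⟩)
  refine ⟨a.1, a.2, fun l => ?_⟩
  have h9 := DFunLike.congr_fun ha (QuotientAddGroup.mk l)
  rw [AddMonoidHom.add_apply, hev, hev, hev] at h9
  have e : y a.1 - y x = (y a.1 - y x2) - (y x - y x2) := by abel
  rw [e, map_sub, h9, add_sub_cancel_left]

theorem flat (hp : 5 ≤ p) (hs : 1 ≤ s) (h3 : 3 * (s - 1) < p) (hf : IsPlanar f) (v : H × K)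
    (hk : Kills p (gr f) (sl p f v) (s * (p - 1) - s + 1)) (hn : (sl p f v).card = p ^ s)
    (hc : ∀ x ∈ sl p f v, (cls p (gr f) (sl p f v) (gr f x)).card = 1) :
    p ^ s ≤ ((PG p H K).filter fun g => p • g = 0).card := by
  have hd : ∀ l : H × K →+ ZMod p, Cst (gr f) (sl p f v) l ∨ Equi (gr f) (sl p f v) l :=
    fun l => dich hp hs h3 (gr f) (sl p f v) hk hn hc l
  have h1 : 1 < (sl p f v).card := by
    rw [hn]
    exact Nat.one_lt_pow (by omega) (by omega)
  obtain ⟨x1, hx1, x2, hx2, hne⟩ := one_lt_card.1 h1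
  choose! g hg using Ex2_closed (gr f) (sl p f v) hn hc hd x1 x2 hx1 hx2
  have hsl : ∀ x ∈ sl p f v, p • gr f x = v := fun x hx => T2b.mem_sl.1 hx
  have hgne : ∀ x ∈ sl p f v, g x ≠ x := by
    intro x hx he
    apply hne
    have h2 : ∀ l : H × K →+ ZMod p, l (gr f x1) = l (gr f x2) := by
      intro l
      have h3' := (hg x hx).2 l
      rw [he, sub_self, map_zero, map_sub] at h3'
      exact sub_eq_zero.1 h3'.symm
    obtain ⟨c, hcc⟩ := card_eq_one.1 (hc x2 hx2)
    have h10 : x1 ∈ cls p (gr f) (sl p f v) (gr f x2) := by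
      simp only [cls, mem_filter]
      exact ⟨hx1, h2⟩
    have h11 := T2b.self_mem_cls (p := p) (f := f) hx2
    rw [hcc, mem_singleton] at h10 h11
    exact h10.trans h11.symm
  rw [← hn]
  refine card_le_card_of_injOn (fun x => (gr f (g x) - gr f x) - (gr f x1 - gr f x2)) ?_ ?_
  · intro x hx
    have hx' : x ∈ sl p f v := hx
    rw [mem_coe, mem_filter]
    constructor
    · obtain ⟨g', hg'⟩ := sep (p := p) ((gr f (g x) - gr f x) - (gr f x1 - gr f x2)) (fun l => by
        rw [map_sub, (hg x hx').2 l, sub_self])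
      simp only [PG, mem_image, mem_univ, true_and]
      exact ⟨g', hg'⟩
    · simp only [smul_sub, hsl _ (hg x hx').1, hsl x hx', hsl x1 hx1, hsl x2 hx2, sub_self]
  · intro x hx x' hx' h
    have hx2' : x ∈ sl p f v := hx
    have hx3' : x' ∈ sl p f v := hx'
    have h4 : gr f (g x) - gr f x = gr f (g x') - gr f x' := sub_left_injective h
    have h5 : g x - x = g x' - x' := congrArg Prod.fst h4
    have h6 : f (g x) - f x = f (g x') - f x' := congrArg Prod.snd h4
    refine (hf (g x - x) (sub_ne_zero.2 (hgne x hx2'))).1 ?_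
    show f (g x - x + x) - f x = f (g x - x + x') - f x'
    rw [sub_add_cancel]
    conv_rhs => rw [h5, sub_add_cancel]
    exact h6

omit [Fact p.Prime] in
/-- the number of points of `p G` -/
private theorem Ex2_PG (hκ : Nat.card (Set.range fun g : H × K => p • g) = p ^ s) :
    (PG p H K).card = p ^ s := by
  rw [← hκ, Nat.card_coe_set_eq, ← Set.ncard_coe_finset]
  congr 1
  ext g
  simp [PG]

omit [Fact p.Prime] in
private theorem Ex2_sum : ∑ v ∈ PG p H K, (sl p f v).card = Fintype.card H := by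
  rw [← Finset.card_univ, Finset.card_eq_sum_card_fiberwise (f := fun x => p • gr f x)
    (t := PG p H K) (s := univ)]
  · rfl
  · intro x _
    simp only [PG, coe_image, coe_univ, Set.image_univ, Set.mem_range]
    exact ⟨gr f x, rfl⟩

omit [Fact p.Prime] in
private theorem Ex2_sq :
    ∑ v ∈ PG p H K, (sl p f v).card ^ 2 = ∑ x, (sl p f (p • gr f x)).card := by
  rw [← Finset.sum_fiberwise_of_maps_to (s := univ) (t := PG p H K) (g := fun x => p • gr f x)
    (fun x _ => mem_image.2 ⟨gr f x, mem_univ _, rfl⟩) (fun x => (sl p f (p • gr f x)).card)]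
  refine sum_congr rfl fun v _ => ?_
  have h : ∑ x ∈ univ.filter (fun x => p • gr f x = v), (sl p f (p • gr f x)).card =
      ∑ _x ∈ sl p f v, (sl p f v).card :=
    sum_congr rfl fun x hx => by rw [(mem_filter.1 hx).2]
  rw [h, sum_const, smul_eq_mul, sq]

omit [Fact p.Prime] in
/-- there are fewer than `p ^ s` collisions -/
private theorem Ex2_coll (hf : IsPlanar f)
    (hκ : Nat.card (Set.range fun g : H × K => p • g) = p ^ s) : (coll p f).card < p ^ s := by
  have h1 : (coll p f).card =
      (univ.filter fun g : H × K => g.1 ≠ 0 ∧ ∃ g' : H × K, p • g' = g).card := by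
    have h := pair_count f hf fun g => ∃ g' : H × K, p • g' = g
    refine Eq.trans ?_ (h.trans ?_)
    · congr 1
    · congr 1
      ext z
      simp only [mem_filter]
  rw [h1, ← Ex2_PG hκ]
  apply card_lt_card
  rw [ssubset_iff_of_subset]
  · refine ⟨0, mem_image.2 ⟨0, mem_univ _, smul_zero p⟩, ?_⟩
    intro h
    exact (mem_filter.1 h).2.1 rfl
  · intro g hg
    obtain ⟨g', hg'⟩ := (mem_filter.1 hg).2.2
    exact mem_image.2 ⟨g', mem_univ _, hg'⟩

theorem no_ex (hp : 5 ≤ p) (hs : 1 ≤ s) (h3 : 3 * (s - 1) < p)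
    (hH : Fintype.card H = p ^ (2 * s)) (hK : Fintype.card K = p ^ (2 * s)) (hf : IsPlanar f)
    (hκ : Nat.card (Set.range fun g : H × K => p • g) = p ^ s) (g : H × K) : p • (p • g) = 0 := by
  by_contra hg
  have hPG := Ex2_PG hκ
  have hC : ((PG p H K).filter fun g => p • g = 0).card < p ^ s := by
    rw [← hPG]
    apply card_lt_card
    rw [ssubset_iff_of_subset (filter_subset _ _)]
    refine ⟨p • g, mem_image.2 ⟨g, mem_univ _, rfl⟩, ?_⟩
    intro h
    exact hg (mem_filter.1 h).2
  have hcoll := Ex2_coll hf hκ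
  have hkill : ∀ v ∈ PG p H K, Kills p (gr f) (sl p f v) (s * (p - 1) - s + 1) := by
    intro v hv
    obtain ⟨w, -, rfl⟩ := mem_image.1 hv
    refine sl_kills (r := 2 * s) (κ := s) (by omega) hH hK f hf hs hκ ?_ w
    have h1 : s ≤ s * (p - 1) := Nat.le_mul_of_pos_right _ (by omega)
    have h2 : s + (s * (p - 1) - s + 1) = s * (p - 1) + 1 := by omega
    rw [h2, mul_assoc]
    omega
  -- slices with at most `p ^ s` points have many collisions
  have hmany : ∀ v ∈ PG p H K, (sl p f v).card ≤ p ^ s →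
      (p - 1) * (sl p f v).card ≤ ((coll p f).filter fun z => z.1 ∈ sl p f v).card := by
    intro v hv hc
    refine T2b.coll_ge (p := p) (f := f) v fun z hz => Nat.le_of_dvd (T2b.pos_of_mem hz) ?_
    rcases hc.lt_or_eq with h | h
    · exact cls_dvd hs h3 (gr f) (sl p f v) (hkill v hv) h z hz
    · by_cases hone : ∀ x ∈ sl p f v, (cls p (gr f) (sl p f v) (gr f x)).card = 1
      · have := flat hp hs h3 hf v (hkill v hv) h hone
        omega
      · push Not at hone
        obtain ⟨x, hx, hx1⟩ := hone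
        have h0 := T2b.pos_of_mem (p := p) (f := f) hx
        exact cls_dvd' hs h3 (gr f) (sl p f v) (hkill v hv) h.le x hx (by omega) z hz
  have hne : ∀ v ∈ PG p H K, (sl p f v).card ≠ p ^ s := by
    intro v hv h
    have h1 := hmany v hv h.le
    have h2 : ((coll p f).filter fun z => z.1 ∈ sl p f v).card ≤ (coll p f).card :=
      Finset.card_filter_le _ _
    have h4 : 1 * p ^ s ≤ (p - 1) * p ^ s := Nat.mul_le_mul_right _ (by omega)
    rw [h] at h1
    omega
  have hdvd : ∀ v ∈ PG p H K, p ∣ (sl p f v).card := by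
    intro v hv
    have h := hkill v hv [] (by simp)
    simp only [List.map_nil, List.prod_nil, sum_const, nsmul_eq_mul, mul_one] at h
    exact (ZMod.natCast_eq_zero_iff _ _).1 h
  have hbig : ∀ v ∈ PG p H K, p ^ s < (sl p f v).card → p ^ s + p ≤ (sl p f v).card := by
    intro v hv h
    have h1 : p ∣ (sl p f v).card - p ^ s :=
      Nat.dvd_sub (hdvd v hv) (dvd_pow_self p (by omega))
    have h2 := Nat.le_of_dvd (by omega) h1
    omega
  -- the variance
  have hsum := Ex2_sum (p := p) (f := f)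
  have hsq : ∑ v ∈ PG p H K, (sl p f v).card ^ 2 ≤ p ^ (2 * s) + p ^ (3 * s) := by
    rw [Ex2_sq]
    refine (Rank.pairs_le f hf).trans ?_
    have h1 := Rank.card_ker hH hK hκ
    have h2 : (univ.filter fun g : H × K => p • g = 0).card = p ^ (3 * s) := by
      have hp0 : 0 < p := by omega
      refine Nat.eq_of_mul_eq_mul_right (pow_pos hp0 s) ?_
      rw [h1, ← pow_add]
      congr 1
      ring
    rw [hH, h2]
  have hvar : ∑ v ∈ PG p H K, (((sl p f v).card : ℤ) - (p : ℤ) ^ s) ^ 2 ≤ ((p : ℤ) ^ s) ^ 2 := by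
    have h1 : (∑ v ∈ PG p H K, ((sl p f v).card : ℤ)) = (p : ℤ) ^ (2 * s) := by
      rw [hH] at hsum
      exact_mod_cast hsum
    have h2 : (∑ v ∈ PG p H K, ((sl p f v).card : ℤ) ^ 2) ≤
        (p : ℤ) ^ (2 * s) + (p : ℤ) ^ (3 * s) := by
      exact_mod_cast hsq
    have h4' : ((PG p H K).card : ℤ) = (p : ℤ) ^ s := by
      exact_mod_cast hPG
    have h4 : ∑ v ∈ PG p H K, (((sl p f v).card : ℤ) - (p : ℤ) ^ s) ^ 2 =
        (∑ v ∈ PG p H K, ((sl p f v).card : ℤ) ^ 2) -
          2 * (p : ℤ) ^ s * (∑ v ∈ PG p H K, ((sl p f v).card : ℤ)) +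
          ((PG p H K).card : ℤ) * ((p : ℤ) ^ s) ^ 2 := by
      rw [Finset.mul_sum, ← Finset.sum_sub_distrib, ← nsmul_eq_mul, ← Finset.sum_const,
        ← Finset.sum_add_distrib]
      apply Finset.sum_congr rfl
      intro v _
      ring
    rw [h4, h1, h4']
    have h5 : (p : ℤ) ^ (3 * s) = (p : ℤ) ^ s * ((p : ℤ) ^ s) ^ 2 := by ring
    have h6 : (p : ℤ) ^ (2 * s) = ((p : ℤ) ^ s) ^ 2 := by ring
    rw [h5, h6] at h2
    rw [h6]
    linarith
  -- at most one slice is small
  have huniq : ∀ v ∈ PG p H K, ∀ w ∈ PG p H K, (sl p f v).card < p ^ s →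
      (sl p f w).card < p ^ s → v = w := by
    intro v hv w hw hcv hcw
    by_contra hvw
    have h1 := hmany v hv hcv.le
    have h2 := hmany w hw hcw.le
    have h3 : ((coll p f).filter fun z => z.1 ∈ sl p f v).card +
        ((coll p f).filter fun z => z.1 ∈ sl p f w).card ≤ (coll p f).card := by
      rw [← Finset.card_union_of_disjoint]
      · apply Finset.card_le_card
        apply Finset.union_subset <;> apply Finset.filter_subset
      · rw [Finset.disjoint_filter]
        intro z _ hz hz'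
        rw [T2b.mem_sl] at hz hz'
        exact hvw (hz.symm.trans hz')
    have h5 : 4 * (sl p f v).card ≤ (p - 1) * (sl p f v).card :=
      Nat.mul_le_mul_right _ (by omega)
    have h6 : 4 * (sl p f w).card ≤ (p - 1) * (sl p f w).card :=
      Nat.mul_le_mul_right _ (by omega)
    have h7 : 4 * (sl p f v).card + 4 * (sl p f w).card < p ^ s := by omega
    have h9 : ∑ x ∈ ({v, w} : Finset (H × K)), (((sl p f x).card : ℤ) - (p : ℤ) ^ s) ^ 2 ≤
        ∑ x ∈ PG p H K, (((sl p f x).card : ℤ) - (p : ℤ) ^ s) ^ 2 := by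
      apply Finset.sum_le_sum_of_subset_of_nonneg
      · intro x hx
        simp only [mem_insert, mem_singleton] at hx
        rcases hx with rfl | rfl <;> assumption
      · intro x _ _
        exact sq_nonneg _
    rw [Finset.sum_pair hvw] at h9
    have h9' := h9.trans hvar
    have h10 : 4 * ((sl p f v).card : ℤ) + 4 * ((sl p f w).card : ℤ) < (p : ℤ) ^ s := by
      exact_mod_cast h7
    have h13 : 0 ≤ ((sl p f v).card : ℤ) := by positivity
    have h14 : 0 ≤ ((sl p f w).card : ℤ) := by positivity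
    generalize (p : ℤ) ^ s = P at *
    generalize ((sl p f v).card : ℤ) = a at *
    generalize ((sl p f w).card : ℤ) = b at *
    nlinarith [mul_pos (by linarith : 0 < P) (by linarith : 0 < P - 4 * a - 4 * b), sq_nonneg a,
      sq_nonneg b, mul_pos (by linarith : 0 < P) (by linarith : 0 < P)]
  -- the sum of the sizes is too large
  have hfin : (p ^ s - 1) * (p ^ s + p) ≤ ∑ v ∈ PG p H K, (sl p f v).card := by
    by_cases hex : ∃ w ∈ PG p H K, (sl p f w).card < p ^ s
    · obtain ⟨w, hw, hcw⟩ := hex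
      rw [← add_sum_erase _ _ hw]
      refine le_add_of_nonneg_of_le (Nat.zero_le _) ?_
      rw [← hPG, ← card_erase_of_mem hw, ← smul_eq_mul]
      apply card_nsmul_le_sum
      intro v hv
      rw [mem_erase] at hv
      rw [hPG]
      apply hbig v hv.2
      have h1 := hne v hv.2
      by_contra hlt
      exact hv.1 (huniq v hv.2 w hw (by omega) hcw)
    · push Not at hex
      have h1 : (PG p H K).card * (p ^ s + p) ≤ ∑ v ∈ PG p H K, (sl p f v).card := by
        rw [← smul_eq_mul]
        apply card_nsmul_le_sum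
        intro v hv
        exact hbig v hv (lt_of_le_of_ne (hex v hv) (hne v hv).symm)
      refine le_trans (Nat.mul_le_mul_right _ ?_) h1
      omega
  rw [hsum, hH] at hfin
  have h1 : p ≤ p ^ s := Nat.le_self_pow (by omega) p
  have h2 : p ^ (2 * s) = p ^ s * p ^ s := by ring
  rw [h2] at hfin
  generalize p ^ s = n at *
  obtain ⟨m, rfl⟩ : ∃ m, n = m + 1 := ⟨n - 1, by omega⟩
  rw [Nat.add_sub_cancel] at hfin
  nlinarith

end Pool.Agent.H88.EV
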