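import Pool.Agent.H88.EV.Defs

/-!
# EV Lin (MP_460e77_co, helper88): on a slice with `p ^ s` points every functional is constant or equidistributed

`greedy`: `F` finite, `x0 ∈ F`, every other point of `F` can be separated from `x0` by a functional `G →+ ZMod p`.  Choose functionals one after the other (induction on `k`): if `F'` is the set of `x ∈ F`, `x ≠ x0`, in the cell of `x0`, the
average over all `l : G →+ ZMod p` of the number of `x ∈ F'` with `l (y x) = l (y x0)` is `|F'| / p` (for each `x` the homomorphism `l ↦ l (y x - y x0)` to `ZMod p` is not zero, so its kernel has `|Dual| / p` elements), so some `l` has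
at most `|F'| / p` such `x`.
`dich`: let `l` be not constant on `S`.  The non-empty fibre with the fewest points, `F = {x ∈ S | l (y x) = c}`, has `2 |F| ≤ |S| = p ^ s` (two disjoint non-empty fibres).  Take `x0 ∈ F` and `greedy` with `k = s - 1`: with `τ = (l, τ')` the cell of
`x0` has at least `1` and at most `1 + (|F| - 1) / p ^ (s - 1) ≤ 1 + p / 2 < p` points, so it is not divisible by `p`; by `push_const` (Pool/Agent/H16/RB/Push.lean) all cells of `τ` have one point, so the fibre of `l` over any `c` is the union of `p ^ (s - 1)` cells.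
-/

set_option autoImplicit false

namespace Pool.Agent.H88.EV

open Finset Pool.Agent.H16.RB Pool.Agent.H88.Pl
open scoped Classical

/-- the functionals that agree at two separated points are at most one in `p` -/
private theorem lin_ker {p : ℕ} [Fact p.Prime] {G : Type*} [AddCommGroup G]
    [Fintype (G →+ ZMod p)] (a b : G) (h : ∃ l : G →+ ZMod p, l a ≠ l b) :
    p * (univ.filter fun l : G →+ ZMod p => l a = l b).card ≤ Fintype.card (G →+ ZMod p) := by
  obtain ⟨l0, hl0⟩ := h
  have hne : l0 a - l0 b ≠ 0 := sub_ne_zero.2 hl0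
  have h1 : ((univ : Finset (ZMod p)) ×ˢ (univ.filter fun l : G →+ ZMod p => l a = l b)).card ≤
      (univ : Finset (G →+ ZMod p)).card := by
    refine card_le_card_of_injOn (fun z => z.2 + z.1.val • l0) (fun _ _ => by simp) ?_
    rintro ⟨i, l⟩ hl ⟨j, m⟩ hm hlm
    have hl2 := (mem_filter.1 (mem_product.1 (mem_coe.1 hl)).2).2
    have hm2 := (mem_filter.1 (mem_product.1 (mem_coe.1 hm)).2).2
    dsimp only at hl2 hm2 hlm
    have e : i * (l0 a - l0 b) = j * (l0 a - l0 b) := by
      have ea := DFunLike.congr_fun hlm a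
      have eb := DFunLike.congr_fun hlm b
      simp only [AddMonoidHom.add_apply, AddMonoidHom.coe_smul, Pi.smul_apply, nsmul_eq_mul,
        ZMod.natCast_val, ZMod.cast_id', id_eq] at ea eb
      linear_combination ea - eb - hl2 + hm2
    have hij : i = j := mul_right_cancel₀ hne e
    subst hij
    have hlm' : l = m := add_right_cancel hlm
    rw [hlm']
  rw [card_product, card_univ, ZMod.card, card_univ] at h1
  exact h1

/-- one greedy step -/
private theorem lin_step {p : ℕ} [Fact p.Prime] {X G : Type*} [AddCommGroup G] [Finite G]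
    (y : X → G) (F : Finset X) (x0 : X) (hF : ∀ x ∈ F, ∃ l : G →+ ZMod p, l (y x) ≠ l (y x0)) :
    ∃ l : G →+ ZMod p, p * (F.filter fun x => l (y x) = l (y x0)).card ≤ F.card := by
  have : Finite (G →+ ZMod p) :=
    Finite.of_injective (fun m => (m : G → ZMod p)) DFunLike.coe_injective
  have : Fintype (G →+ ZMod p) := Fintype.ofFinite _
  have h1 : ∑ l : G →+ ZMod p, p * (F.filter fun x => l (y x) = l (y x0)).card ≤
      ∑ _l : G →+ ZMod p, F.card := by
    have h2 : ∑ l : G →+ ZMod p, p * (F.filter fun x => l (y x) = l (y x0)).card =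
        ∑ x ∈ F, p * (univ.filter fun l : G →+ ZMod p => l (y x) = l (y x0)).card := by
      simp only [card_filter, mul_sum]
      exact sum_comm
    rw [h2, sum_const, card_univ, smul_eq_mul, mul_comm]
    refine (sum_le_sum fun x hx => lin_ker (y x) (y x0) (hF x hx)).trans ?_
    rw [sum_const, smul_eq_mul]
  obtain ⟨l, _, hl⟩ := exists_le_of_sum_le (univ_nonempty (α := G →+ ZMod p)) h1
  exact ⟨l, hl⟩

theorem greedy {p : ℕ} [Fact p.Prime] {X G : Type*} [AddCommGroup G] [Finite G] (y : X → G)
    (F : Finset X) (x0 : X) (hF : ∀ x ∈ F, x ≠ x0 → ∃ l : G →+ ZMod p, l (y x) ≠ l (y x0)) (k : ℕ) :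
    ∃ τ : Fin k → (G →+ ZMod p),
      p ^ k * (F.filter fun x => x ≠ x0 ∧ ∀ i, τ i (y x) = τ i (y x0)).card ≤
        (F.filter fun x => x ≠ x0).card := by
  induction k with
  | zero =>
    refine ⟨fun i => i.elim0, ?_⟩
    rw [pow_zero, one_mul]
    refine card_le_card fun x hx => ?_
    rw [mem_filter] at hx ⊢
    exact ⟨hx.1, hx.2.1⟩
  | succ k ih =>
    obtain ⟨τ, hτ⟩ := ih
    obtain ⟨l, hl⟩ := lin_step (p := p) y
      (F.filter fun x => x ≠ x0 ∧ ∀ i, τ i (y x) = τ i (y x0)) x0
      (fun x hx => hF x (mem_filter.1 hx).1 (mem_filter.1 hx).2.1)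
    refine ⟨Fin.cons l τ, ?_⟩
    have h1 : (F.filter fun x => x ≠ x0 ∧ ∀ i, (Fin.cons l τ : Fin (k + 1) → (G →+ ZMod p)) i (y x) =
        (Fin.cons l τ : Fin (k + 1) → (G →+ ZMod p)) i (y x0)) =
        (F.filter fun x => x ≠ x0 ∧ ∀ i, τ i (y x) = τ i (y x0)).filter
          fun x => l (y x) = l (y x0) := by
      ext x
      simp only [mem_filter, Fin.forall_fin_succ, Fin.cons_zero, Fin.cons_succ]
      tauto
    rw [h1, pow_succ, mul_assoc]
    exact (Nat.mul_le_mul_left _ hl).trans hτ

/-- the fibre of a non constant functional with the fewest points -/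
private theorem lin_min {p : ℕ} {X G : Type*} [AddCommGroup G] (y : X → G) (S : Finset X)
    (l : G →+ ZMod p) (h : ¬ Cst y S l) :
    ∃ x0 ∈ S, 2 * (S.filter fun x => l (y x) = l (y x0)).card ≤ S.card := by
  unfold Cst at h
  push Not at h
  obtain ⟨x1, h1, x2, h2, h12⟩ := h
  have h3 : (S.filter fun x => l (y x) = l (y x1)).card +
      (S.filter fun x => l (y x) = l (y x2)).card ≤ S.card := by
    rw [← card_union_of_disjoint]
    · exact card_le_card (union_subset (filter_subset _ _) (filter_subset _ _))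
    · rw [disjoint_filter]
      intro x _ hx hx'
      exact h12 (hx.symm.trans hx')
  by_cases h4 : (S.filter fun x => l (y x) = l (y x1)).card ≤
      (S.filter fun x => l (y x) = l (y x2)).card
  · exact ⟨x1, h1, by omega⟩
  · exact ⟨x2, h2, by omega⟩

theorem dich {p s : ℕ} [Fact p.Prime] (hp : 5 ≤ p) (hs : 1 ≤ s) (h3 : 3 * (s - 1) < p)
    {X G : Type*} [AddCommGroup G] [Finite G] (y : X → G) (S : Finset X)
    (hK : Kills p y S (s * (p - 1) - s + 1)) (hS : S.card = p ^ s)
    (hc : ∀ x ∈ S, (cls p y S (y x)).card = 1) (l : G →+ ZMod p) : Cst y S l ∨ Equi y S l := by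
  by_cases hC : Cst y S l
  · exact Or.inl hC
  right
  obtain ⟨x0, hx0, hF⟩ := lin_min y S l hC
  obtain ⟨k, rfl⟩ : ∃ k, s = k + 1 := ⟨s - 1, by omega⟩
  obtain ⟨τ, hτ⟩ := greedy (p := p) y (S.filter fun x => l (y x) = l (y x0)) x0 (by
    intro x hx hne
    by_contra hcon
    push Not at hcon
    have h4 := hc x0 hx0
    have h5 : x ∈ cls p y S (y x0) := by
      simp only [cls, mem_filter]
      exact ⟨(mem_filter.1 hx).1, hcon⟩
    have h6 : x0 ∈ cls p y S (y x0) := by
      simp only [cls, mem_filter]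
      exact ⟨hx0, fun _ => trivial⟩
    exact hne (card_le_one.1 h4.le x h5 x0 h6)) k
  have hcell : (S.filter fun x => ∀ i, (Fin.cons l τ : Fin (k + 1) → (G →+ ZMod p)) i (y x) =
      (fun i => (Fin.cons l τ : Fin (k + 1) → (G →+ ZMod p)) i (y x0)) i) =
      insert x0 ((S.filter fun x => l (y x) = l (y x0)).filter
        fun x => x ≠ x0 ∧ ∀ i, τ i (y x) = τ i (y x0)) := by
    ext x
    simp only [mem_filter, mem_insert, Fin.forall_fin_succ, Fin.cons_zero, Fin.cons_succ]
    constructor
    · rintro ⟨h4, h5, h6⟩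
      by_cases h7 : x = x0
      · exact Or.inl h7
      · exact Or.inr ⟨⟨h4, h5⟩, h7, h6⟩
    · rintro (h4 | ⟨⟨h4, h5⟩, h6, h7⟩)
      · subst h4
        exact ⟨hx0, rfl, fun _ => rfl⟩
      · exact ⟨h4, h5, h7⟩
  have hsmall : (insert x0 ((S.filter fun x => l (y x) = l (y x0)).filter
        fun x => x ≠ x0 ∧ ∀ i, τ i (y x) = τ i (y x0))).card < p := by
    have h4 := card_insert_le x0 ((S.filter fun x => l (y x) = l (y x0)).filter
        fun x => x ≠ x0 ∧ ∀ i, τ i (y x) = τ i (y x0))
    have h5 := card_filter_le (S.filter fun x => l (y x) = l (y x0)) (fun x => x ≠ x0)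
    have h6 : p ^ k * (2 * ((S.filter fun x => l (y x) = l (y x0)).filter
        fun x => x ≠ x0 ∧ ∀ i, τ i (y x) = τ i (y x0)).card) ≤ p ^ k * p := by
      rw [← pow_succ, ← hS]
      calc _ = 2 * (p ^ k * ((S.filter fun x => l (y x) = l (y x0)).filter
        fun x => x ≠ x0 ∧ ∀ i, τ i (y x) = τ i (y x0)).card) := by ring
        _ ≤ 2 * (S.filter fun x => l (y x) = l (y x0)).card :=
            Nat.mul_le_mul_left _ (hτ.trans h5)
        _ ≤ _ := hF
    have h7 := Nat.le_of_mul_le_mul_left h6 (pow_pos (by omega) k)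
    omega
  rcases push_const hs h3 y S hK hS.le (Fin.cons l τ) with h4 | ⟨_, h4⟩
  · exfalso
    have h5 := h4 (fun i => (Fin.cons l τ : Fin (k + 1) → (G →+ ZMod p)) i (y x0))
    rw [hcell] at h5
    have h6 := Nat.le_of_dvd (card_pos.2 ⟨x0, mem_insert_self _ _⟩) h5
    omega
  · intro c
    have h5 : (S.filter fun x => l (y x) = c).card = p ^ k := by
      have h6 := card_eq_sum_card_fiberwise (s := S.filter fun x => l (y x) = c)
        (t := (univ : Finset (Fin k → ZMod p))) (f := fun x i => τ i (y x))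
        (fun x _ => mem_coe.2 (mem_univ _))
      rw [h6]
      have h7 : ∀ z : Fin k → ZMod p, ((S.filter fun x => l (y x) = c).filter
          fun x => (fun i => τ i (y x)) = z).card = 1 := by
        intro z
        rw [← h4 (Fin.cons c z)]
        congr 1
        ext x
        simp only [mem_filter, Fin.forall_fin_succ, Fin.cons_zero, Fin.cons_succ, funext_iff]
        tauto
      rw [sum_congr rfl fun z _ => h7 z, sum_const, card_univ, Fintype.card_fun, ZMod.card,
        Fintype.card_fin, smul_eq_mul, mul_one]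
    rw [h5, hS, pow_succ, mul_comm]

end Pool.Agent.H88.EV
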