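import Pool.Agent.H88.EV.Ar

/-!
# EV Sw (MP_460e77_co, helper88): the small slice has exactly `p ^ u` points

`w` the small slice, `kw : K` with `p • kw = w.2`.  `Ψ` = the `ψ : K →+ ZMod p` with `Van ψ`: `p ^ t` of them (`card_hom0` for `K`, `|p K| = p ^ t`).
`fib_w`: `ψ ∈ Ψ` not zero.  `A_c = #{x | ψ (f x) = c}` is the sum of `|S_v|` over the `v ∈ PG` with `ψ k = c` for the `k` with `p k = v.2` (well defined by `Van`); there are `p ^ (s - 1)` such `v` for each `c` (`p • ` number `= p ^ s`), all `|S_v| ≥ p ^ s` except `v = w` (`D2.unique_small`): for `c ≠ ψ kw`: `p A_c ≥ p ^ (2 s)`.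
By `fib_form`: `ε = 1` gives `p A_c = p ^ (2 s) - p ^ s` for `c ≠ j`, and there is `c` different from `j` and `ψ kw` (`p ≥ 3`): impossible; so `ε = -1`, and for `c = j` `p A_j = p ^ (2 s) - p ^ s (p - 1) < p ^ (2 s)`, so `j = ψ kw`.
`small_eq`: count the pairs `(x, ψ)`, `ψ ∈ Ψ`, `ψ (f x) = ψ kw`: `∑_ψ` gives `p ^ (2 s)` for `ψ = 0` and `A_(ψ kw)` for the `p ^ t - 1` others; for fixed `x` the number of `ψ ∈ Ψ` with `ψ (f x - kw) = 0` is `p ^ t` if `p f x = w.2` and `p ^ (t - 1)` otherwise (for `p k ≠ 0` there is `ψ ∈ Ψ` with `ψ k ≠ 0`: Dual of `p K`).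
So `Z = #{x | p f x = w.2}` satisfies `(p - 1) p ^ t Z = ...`, `Z = p ^ (s + u) - p ^ s + p ^ u`.  And `Z = ∑ |S_v|` over `v ∈ PG`, `v.2 = w.2`: `p ^ u` slices, all with `p ^ s` points (`D2.good`) except `w`.
-/

set_option autoImplicit false

namespace Pool.Agent.H88.EV

open Finset Pool.Agent.H16.RB Pool.Agent.H88.Pl Pool.Agent.H88.E7
open scoped Classical

variable {p s t u : ℕ} [Fact p.Prime] {H K : Type*} [AddCommGroup H] [AddCommGroup K] [Fintype H]
  [Fintype K] {f : H → K}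

omit [Fintype H] [Fintype K] in
private theorem Sw_lvl {ψ : K →+ ZMod p} (hV : Van ψ) {k k' : K} (h : p • k = p • k') :
    ψ k = ψ k' := by
  have h1 := hV (k - k') (by rw [smul_sub, h, sub_self])
  rwa [map_sub, sub_eq_zero] at h1

/-- the slices on which `ψ` is `c` -/
private noncomputable def PGc (_f : H → K) (ψ : K →+ ZMod p) (c : ZMod p) : Finset (H × K) :=
  (PG p H K).filter fun v => ∃ k : K, p • k = v.2 ∧ ψ k = c

private theorem Sw_sum (f : H → K) {ψ : K →+ ZMod p} (hV : Van ψ) (c : ZMod p) :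
    (univ.filter fun x : H => ψ (f x) = c).card = ∑ v ∈ PGc f ψ c, (sl p f v).card := by
  rw [card_eq_sum_card_fiberwise (f := fun x => p • gr f x) (t := PGc f ψ c)]
  · refine sum_congr rfl fun v hv => ?_
    congr 1
    ext x
    rw [PGc, mem_filter] at hv
    obtain ⟨_, k, hk, hkc⟩ := hv
    rw [mem_filter, mem_filter, sl, mem_filter]
    constructor
    · rintro ⟨⟨_, _⟩, h2⟩
      exact ⟨mem_univ _, h2⟩
    · rintro ⟨_, h2⟩
      refine ⟨⟨mem_univ _, ?_⟩, h2⟩
      rw [← hkc]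
      refine Sw_lvl hV ?_
      rw [hk, ← h2]
      rfl
  · intro x hx
    rw [mem_coe, mem_filter] at hx
    rw [mem_coe, PGc, mem_filter]
    exact ⟨mem_image.2 ⟨_, mem_univ _, rfl⟩, f x, rfl, hx.2⟩

private theorem Sw_card (f : H → K) {ψ : K →+ ZMod p} (hV : Van ψ) (hψ : ∃ k : K, ψ k ≠ 0)
    (c : ZMod p) : p * (PGc f ψ c).card = (PG p H K).card := by
  have hpp : p.Prime := Fact.out
  have : NeZero p := ⟨hpp.ne_zero⟩
  obtain ⟨k1, hk1⟩ : ∃ k : K, ψ k = 1 := by
    obtain ⟨k, hk⟩ := hψ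
    refine ⟨((ψ k)⁻¹).val • k, ?_⟩
    rw [map_nsmul, nsmul_eq_mul, ZMod.natCast_val, ZMod.cast_id', id_eq, inv_mul_cancel₀ hk]
  have hle : ∀ c d : ZMod p, (PGc f ψ c).card ≤ (PGc f ψ d).card := by
    intro c d
    refine card_le_card_of_injOn (fun v => v + p • ((0 : H), (d - c).val • k1)) ?_ ?_
    · intro v hv
      rw [mem_coe, PGc, mem_filter] at hv
      rw [mem_coe, PGc, mem_filter]
      obtain ⟨h1, k, hk, hkc⟩ := hv
      obtain ⟨g, -, hg⟩ := mem_image.1 h1
      refine ⟨mem_image.2 ⟨g + (0, (d - c).val • k1), mem_univ _, ?_⟩, k + (d - c).val • k1, ?_, ?_⟩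
      · show p • (g + (0, (d - c).val • k1)) = _
        rw [smul_add, ← hg]
      · rw [smul_add, hk]
        rfl
      · rw [map_add, hkc, map_nsmul, hk1, nsmul_eq_mul, mul_one, ZMod.natCast_val, ZMod.cast_id',
          id_eq]
        ring
    · intro a _ b _ hab
      exact add_right_cancel hab
  have hsum : (PG p H K).card = ∑ d : ZMod p, (PGc f ψ d).card := by
    have hq : ∀ v : H × K, ∃ d : ZMod p, v ∈ PG p H K → ∃ k : K, p • k = v.2 ∧ ψ k = d := by
      intro v
      by_cases hv : v ∈ PG p H K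
      · obtain ⟨g, -, hg⟩ := mem_image.1 hv
        exact ⟨ψ g.2, fun _ => ⟨g.2, by rw [← hg]; rfl, rfl⟩⟩
      · exact ⟨0, fun h => absurd h hv⟩
    choose q hq using hq
    rw [card_eq_sum_card_fiberwise (f := q) (t := (univ : Finset (ZMod p)))
      (fun _ _ => mem_coe.2 (mem_univ _))]
    refine sum_congr rfl fun d _ => ?_
    congr 1
    ext v
    rw [PGc, mem_filter, mem_filter]
    constructor
    · rintro ⟨h1, h2⟩
      refine ⟨h1, ?_⟩
      rw [← h2]
      exact hq v h1
    · rintro ⟨h1, k, hk, hkd⟩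
      refine ⟨h1, ?_⟩
      obtain ⟨k', hk', hkd'⟩ := hq v h1
      rw [← hkd', ← hkd]
      exact Sw_lvl hV (by rw [hk', hk])
  rw [hsum, sum_congr rfl fun d _ => (le_antisymm (hle d c) (hle c d)), sum_const, card_univ,
    ZMod.card, smul_eq_mul]

theorem fib_w (D : D2 p s t u f) {w : H × K} (hw : w ∈ PG p H K) (hlt : (sl p f w).card < p ^ s)
    {kw : K} (hkw : p • kw = w.2) (ψ : K →+ ZMod p) (hV : Van ψ) (hψ : ∃ k : K, ψ k ≠ 0) :
    p * (univ.filter fun x : H => ψ (f x) = ψ kw).card + p ^ s * (p - 1) = p ^ (2 * s) := by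
  have hpp : p.Prime := Fact.out
  have hp5 := D.hp
  have : NeZero p := ⟨hpp.ne_zero⟩
  obtain ⟨ε, j, hε, hA⟩ := fib_form (by omega) D.hH f D.hf ψ hψ
  have h1 : ∀ c, c ≠ ψ kw → (p : ℤ) ^ (2 * s) ≤
      (p : ℤ) * ((univ.filter fun x : H => ψ (f x) = c).card : ℤ) := by
    intro c hc
    have h2 : p ^ (2 * s) ≤ p * (univ.filter fun x : H => ψ (f x) = c).card := by
      rw [Sw_sum f hV c]
      have h3 : (PGc f ψ c).card * p ^ s ≤ ∑ v ∈ PGc f ψ c, (sl p f v).card := by
        rw [← smul_eq_mul, ← sum_const]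
        refine sum_le_sum fun v hv => ?_
        by_contra hcon
        push Not at hcon
        rw [PGc, mem_filter] at hv
        obtain ⟨hv1, k, hk, hkc⟩ := hv
        have h4 := D.unique_small v w hv1 hw hcon hlt
        rw [h4, ← hkw] at hk
        exact hc (by rw [← hkc]; exact Sw_lvl hV hk)
      have h4 := Sw_card f hV hψ c
      rw [D.card_PG] at h4
      calc p ^ (2 * s) = (p * (PGc f ψ c).card) * p ^ s := by rw [h4, ← pow_add]; congr 1; ring
        _ = p * ((PGc f ψ c).card * p ^ s) := by ring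
        _ ≤ _ := Nat.mul_le_mul_left _ h3
    exact_mod_cast h2
  have hps : (0 : ℤ) < (p : ℤ) ^ s := by
    have := hpp.pos
    positivity
  have hp1 : (5 : ℤ) ≤ p := by exact_mod_cast hp5
  rcases hε with rfl | rfl
  · exfalso
    obtain ⟨c, hc⟩ : ∃ c : ZMod p, c ∉ ({j, ψ kw} : Finset (ZMod p)) := by
      by_contra hcon
      push Not at hcon
      have h2 : (univ : Finset (ZMod p)) ⊆ {j, ψ kw} := fun c _ => hcon c
      have h3 := card_le_card h2
      rw [card_univ, ZMod.card] at h3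
      have h4 := card_le_two (a := j) (b := ψ kw)
      omega
    rw [mem_insert, mem_singleton, not_or] at hc
    have h2 := h1 c hc.2
    rw [hA c, if_neg hc.1] at h2
    linarith
  · have hj : j = ψ kw := by
      by_contra hne
      have h2 := h1 j hne
      rw [hA j, if_pos rfl] at h2
      nlinarith
    have h2 := hA (ψ kw)
    rw [if_pos hj.symm] at h2
    zify [show 1 ≤ p by omega]
    rw [h2]
    ring

/-- the part of a finite subgroup on which a homomorphism to `ZMod p` vanishes -/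
private theorem Sw_ker {A : Type*} [AddCommGroup A] (S : Finset A)
    (hS : ∀ a ∈ S, ∀ b ∈ S, a + b ∈ S) (hn : ∀ a ∈ S, ∀ n : ℕ, n • a ∈ S)
    (hm : ∀ a ∈ S, -a ∈ S) (l : A →+ ZMod p) (hl : ∃ g ∈ S, l g ≠ 0) :
    p * (S.filter fun g => l g = 0).card = S.card := by
  have hpp : p.Prime := Fact.out
  have : NeZero p := ⟨hpp.ne_zero⟩
  obtain ⟨g0, hg0, hl0⟩ := hl
  have h1 : ∀ c : ZMod p, (S.filter fun g => l g = c).card = (S.filter fun g => l g = 0).card := by
    intro c
    set n : ℕ := (c * (l g0)⁻¹).val with hn'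
    have h2 : l (n • g0) = c := by
      rw [map_nsmul, nsmul_eq_mul, hn', ZMod.natCast_val, ZMod.cast_id', id_eq, mul_assoc,
        inv_mul_cancel₀ hl0, mul_one]
    symm
    refine card_bij (fun g _ => g + n • g0) ?_ ?_ ?_
    · intro g hg
      rw [mem_filter] at hg ⊢
      refine ⟨hS _ hg.1 _ (hn _ hg0 _), ?_⟩
      rw [map_add, hg.2, h2, zero_add]
    · intro a _ b _ h
      exact add_right_cancel h
    · intro g hg
      rw [mem_filter] at hg
      refine ⟨g - n • g0, ?_, sub_add_cancel _ _⟩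
      rw [mem_filter]
      refine ⟨?_, ?_⟩
      · rw [sub_eq_add_neg]
        exact hS _ hg.1 _ (hm _ (hn _ hg0 _))
      · rw [map_sub, hg.2, h2, sub_self]
  have h2 := card_eq_sum_card_fiberwise (s := S)
    (f := fun g => l g) (t := (univ : Finset (ZMod p))) (fun _ _ => mem_coe.2 (mem_univ _))
  rw [sum_congr rfl (fun c _ => h1 c), sum_const, card_univ, ZMod.card, smul_eq_mul] at h2
  exact h2.symm

omit [Fintype K] in
private theorem Sw_sep [Finite K] (hel : ∀ k : K, p • (p • k) = 0) {k : K} (hk : p • k ≠ 0) :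
    ∃ ψ : K →+ ZMod p, Van ψ ∧ ψ k ≠ 0 := by
  let P : AddSubgroup K := (nsmulAddMonoidHom (α := K) p).range
  have hP : p • k ∈ P := ⟨k, rfl⟩
  obtain ⟨l, hl⟩ : ∃ l : P →+ ZMod p, l ⟨p • k, hP⟩ ≠ 0 := by
    by_contra hcon
    push Not at hcon
    obtain ⟨g', hg'⟩ := sep (p := p) (⟨p • k, hP⟩ : P) hcon
    obtain ⟨a, ha⟩ := g'.2
    apply hk
    have h1 : p • (g' : K) = p • k := by
      have := congrArg (fun z : P => (z : K)) hg'
      simpa using this
    rw [← h1, ← ha]
    exact hel a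
  let m : K →+ P := (nsmulAddMonoidHom (α := K) p).rangeRestrict
  refine ⟨l.comp m, ?_, ?_⟩
  · intro g hg
    have h1 : m g = 0 := Subtype.ext hg
    rw [AddMonoidHom.comp_apply, h1, map_zero]
  · exact hl

/-- the number of `x` with `p f x = w.2` -/
theorem card_Z (D : D2 p s t u f) {w : H × K} (hw : w ∈ PG p H K) (hlt : (sl p f w).card < p ^ s) :
    (univ.filter fun x : H => p • f x = w.2).card + p ^ s = p ^ (s + u) + p ^ u := by
  have hpp : p.Prime := Fact.out
  have hp5 := D.hp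
  have : Finite (K →+ ZMod p) := DFunLike.finite _
  have := Fintype.ofFinite (K →+ ZMod p)
  have hel : ∀ k : K, p • (p • k) = 0 := fun k => congrArg Prod.snd (D.h2 (0, k))
  obtain ⟨kw, hkw⟩ : ∃ kw : K, p • kw = w.2 := by
    obtain ⟨g, -, hg⟩ := mem_image.1 hw
    exact ⟨g.2, by rw [← hg]; rfl⟩
  set Ψ : Finset (K →+ ZMod p) := univ.filter fun ψ => Van ψ with hΨ
  have hcard : Ψ.card = p ^ t := by
    have h1 := card_hom0 (p := p) (G := K) hel
    rw [Nat.card_eq_fintype_card, Fintype.card_subtype] at h1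
    have h2 : Nat.card (Set.range fun k : K => p • k) = p ^ t := by
      rw [← D.ht, Nat.card_coe_set_eq, ← Set.ncard_coe_finset]
      congr 1
      ext z
      simp
    rw [← h2, ← h1, hΨ]
    congr 1
    ext ψ
    rw [mem_filter, mem_filter]
    exact Iff.rfl
  -- count the pairs
  have hL : p * ∑ ψ ∈ Ψ, (univ.filter fun x : H => ψ (f x) = ψ kw).card +
      (p ^ t - 1) * (p ^ s * (p - 1)) = p * p ^ (2 * s) + (p ^ t - 1) * p ^ (2 * s) := by
    have h0 : (0 : K →+ ZMod p) ∈ Ψ := by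
      rw [hΨ, mem_filter]
      exact ⟨mem_univ _, fun g _ => rfl⟩
    rw [← add_sum_erase _ _ h0]
    have h1 : (univ.filter fun x : H => (0 : K →+ ZMod p) (f x) = (0 : K →+ ZMod p) kw).card =
        p ^ (2 * s) := by
      rw [filter_true_of_mem, card_univ, D.hH]
      intro x _
      rfl
    have h2 : p * ∑ ψ ∈ Ψ.erase 0, (univ.filter fun x : H => ψ (f x) = ψ kw).card +
        (p ^ t - 1) * (p ^ s * (p - 1)) = (p ^ t - 1) * p ^ (2 * s) := by
      have h3 : (Ψ.erase 0).card = p ^ t - 1 := by rw [card_erase_of_mem h0, hcard]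
      rw [← h3, mul_sum, ← smul_eq_mul (a := (Ψ.erase 0).card) (b := p ^ s * (p - 1)), ← sum_const,
        ← sum_add_distrib, ← smul_eq_mul (a := (Ψ.erase 0).card) (b := p ^ (2 * s)), ← sum_const]
      refine sum_congr rfl fun ψ hψ => ?_
      rw [mem_erase, hΨ, mem_filter] at hψ
      refine fib_w D hw hlt hkw ψ hψ.2.2 ?_
      by_contra hcon
      push Not at hcon
      exact hψ.1 (by ext k; exact hcon k)
    rw [h1, mul_add, add_assoc, h2]
  have hR : p * ∑ ψ ∈ Ψ, (univ.filter fun x : H => ψ (f x) = ψ kw).card =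
      p * p ^ t * (univ.filter fun x : H => p • f x = w.2).card +
        p ^ t * (univ.filter fun x : H => ¬ p • f x = w.2).card := by
    have h1 : ∑ ψ ∈ Ψ, (univ.filter fun x : H => ψ (f x) = ψ kw).card =
        ∑ x : H, (Ψ.filter fun ψ => ψ (f x) = ψ kw).card := by
      simp only [card_filter]
      exact sum_comm
    rw [h1, ← sum_filter_add_sum_filter_not univ (fun x : H => p • f x = w.2), mul_add, mul_sum,
      mul_sum]
    congr 1
    · rw [sum_congr rfl (g := fun _ => p * p ^ t), sum_const, smul_eq_mul, mul_comm]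
      intro x hx
      rw [mem_filter] at hx
      rw [filter_true_of_mem, hcard]
      intro ψ hψ
      rw [hΨ, mem_filter] at hψ
      exact Sw_lvl hψ.2 (by rw [hx.2, hkw])
    · rw [sum_congr rfl (g := fun _ => p ^ t), sum_const, smul_eq_mul, mul_comm]
      intro x hx
      rw [mem_filter] at hx
      have h2 : p • (f x - kw) ≠ 0 := by
        rw [smul_sub, hkw, sub_ne_zero]
        exact hx.2
      obtain ⟨ψ0, hV0, hψ0⟩ := Sw_sep hel h2
      have h3 := Sw_ker (p := p) Ψ ?_ ?_ ?_ (AddMonoidHom.eval (f x - kw))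
        ⟨ψ0, by rw [hΨ, mem_filter]; exact ⟨mem_univ _, hV0⟩, hψ0⟩
      · have h4 : (Ψ.filter fun ψ => ψ (f x) = ψ kw) =
            Ψ.filter fun g => AddMonoidHom.eval (f x - kw) g = 0 := by
          refine filter_congr fun ψ _ => ?_
          show ψ (f x) = ψ kw ↔ ψ (f x - kw) = 0
          rw [map_sub, sub_eq_zero]
        rw [← hcard, ← h3, h4]
      · intro a ha b hb
        rw [hΨ, mem_filter] at ha hb ⊢
        refine ⟨mem_univ _, fun g hg => ?_⟩
        rw [AddMonoidHom.add_apply, ha.2 g hg, hb.2 g hg, add_zero]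
      · intro a ha n
        rw [hΨ, mem_filter] at ha ⊢
        refine ⟨mem_univ _, fun g hg => ?_⟩
        rw [AddMonoidHom.nsmul_apply, ha.2 g hg, smul_zero]
      · intro a ha
        rw [hΨ, mem_filter] at ha ⊢
        refine ⟨mem_univ _, fun g hg => ?_⟩
        rw [AddMonoidHom.neg_apply, ha.2 g hg, neg_zero]
  have hcompl : (univ.filter fun x : H => p • f x = w.2).card +
      (univ.filter fun x : H => ¬ p • f x = w.2).card = p ^ (2 * s) := by
    rw [card_filter_add_card_filter_not, card_univ, D.hH]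
  rw [hR] at hL
  generalize (univ.filter fun x : H => p • f x = w.2).card = Z at *
  generalize (univ.filter fun x : H => ¬ p • f x = w.2).card = Y at *
  have hut := D.hut
  have e1 : p ^ (2 * s) = (p ^ t * p ^ u) * (p ^ t * p ^ u) := by
    rw [← pow_add, ← pow_add]
    congr 1
    omega
  have e2 : p ^ s = p ^ t * p ^ u := by
    rw [← pow_add]
    congr 1
    omega
  have e3 : p ^ (s + u) = p ^ t * p ^ u * p ^ u := by
    rw [← pow_add, ← pow_add]
    congr 1
    omega
  obtain ⟨q, hq⟩ : ∃ q, p = q + 1 := ⟨p - 1, by omega⟩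
  have hq0 : 0 < q := by omega
  have hpt : 0 < p ^ t := pow_pos hpp.pos t
  obtain ⟨m, hm⟩ : ∃ m, p ^ t = m + 1 := ⟨p ^ t - 1, by omega⟩
  rw [e1, e2, hm, Nat.add_sub_cancel] at hL
  rw [e1, hm] at hcompl
  rw [e2, e3, hm]
  generalize p ^ u = a at *
  have hp1 : p - 1 = q := by omega
  rw [hp1, hq] at hL
  have hY : Y = (m + 1) * a * ((m + 1) * a) - Z := by omega
  have hkey : q * ((m + 1) * (Z + (m + 1) * a)) = q * ((m + 1) * ((m + 1) * a * a + a)) := by
    nlinarith
  have h5 := Nat.eq_of_mul_eq_mul_left hq0 hkey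
  exact Nat.eq_of_mul_eq_mul_left (by omega : 0 < m + 1) h5

theorem small_eq (D : D2 p s t u f) {w : H × K} (hw : w ∈ PG p H K)
    (hlt : (sl p f w).card < p ^ s) : (sl p f w).card = p ^ u := by
  have hZ := card_Z D hw hlt
  have hpp : p.Prime := Fact.out
  have h1 : (univ.filter fun x : H => p • f x = w.2).card =
      ∑ v ∈ (PG p H K).filter (fun v => v.2 = w.2), (sl p f v).card := by
    rw [card_eq_sum_card_fiberwise (f := fun x => p • gr f x)
      (t := (PG p H K).filter fun v => v.2 = w.2)]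
    · refine sum_congr rfl fun v hv => ?_
      congr 1
      ext x
      rw [mem_filter] at hv
      rw [mem_filter, mem_filter, sl, mem_filter]
      constructor
      · rintro ⟨⟨_, _⟩, h2⟩
        exact ⟨mem_univ _, h2⟩
      · rintro ⟨_, h2⟩
        refine ⟨⟨mem_univ _, ?_⟩, h2⟩
        rw [← hv.2, ← h2]
        rfl
    · intro x hx
      rw [mem_coe, mem_filter] at hx
      rw [mem_coe, mem_filter]
      exact ⟨mem_image.2 ⟨_, mem_univ _, rfl⟩, hx.2⟩
  have h2 : ((PG p H K).filter fun v => v.2 = w.2).card = p ^ u := by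
    rw [← D.hu]
    obtain ⟨gw, -, hgw⟩ := mem_image.1 hw
    refine card_bij (fun v _ => v.1) ?_ ?_ ?_
    · intro v hv
      rw [mem_filter] at hv
      obtain ⟨g, -, hg⟩ := mem_image.1 hv.1
      exact mem_image.2 ⟨g.1, mem_univ _, by rw [← hg]; rfl⟩
    · intro a ha b hb hab
      rw [mem_filter] at ha hb
      exact Prod.ext hab (by rw [ha.2, hb.2])
    · intro a ha
      obtain ⟨h, -, rfl⟩ := mem_image.1 ha
      refine ⟨(p • h, w.2), ?_, rfl⟩
      rw [mem_filter]
      exact ⟨mem_image.2 ⟨(h, gw.2), mem_univ _, by rw [← hgw]; rfl⟩, rfl⟩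
  have hwm : w ∈ (PG p H K).filter fun v => v.2 = w.2 := mem_filter.2 ⟨hw, rfl⟩
  rw [h1, ← add_sum_erase _ _ hwm] at hZ
  have h3 : ∑ v ∈ ((PG p H K).filter fun v => v.2 = w.2).erase w, (sl p f v).card =
      (p ^ u - 1) * p ^ s := by
    rw [sum_congr rfl (g := fun _ => p ^ s), sum_const, card_erase_of_mem hwm, h2, smul_eq_mul]
    intro v hv
    rw [mem_erase, mem_filter] at hv
    refine D.good v w hv.2.1 hw hlt ?_
    intro h4
    exact hv.1 (Prod.ext h4 hv.2.2)
  rw [h3] at hZ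
  have h4 : (p ^ u - 1) * p ^ s + p ^ s = p ^ (s + u) := by
    obtain ⟨m, hm⟩ : ∃ m, p ^ u = m + 1 := ⟨p ^ u - 1, by have := pow_pos hpp.pos u; omega⟩
    rw [pow_add, hm, Nat.add_sub_cancel]
    ring
  omega

end Pool.Agent.H88.EV
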