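import Pool.Agent.H88.EV.Ine
import Pool.Agent.H88.EV.Sw
import Pool.Agent.H88.EV.Ex2
import Pool.Agent.H16.RB.Half
import Pool.Agent.H88.E7.Main

/-!
# EV Main (MP_460e77_co, helper88): `|p G| < p ^ s` for `r = 2 s`
-/

set_option autoImplicit false

namespace Pool.Agent.H88.EV

open Finset Pool.Agent.H16.RB Pool.Agent.H88.Pl Pool.Agent.H88.E7
open scoped Classical

theorem no_D2 {p s t u : ℕ} [Fact p.Prime] {H K : Type*} [AddCommGroup H] [AddCommGroup K]
    [Fintype H] [Fintype K] {f : H → K} (D : D2 p s t u f) : False := by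
  have hpp : p.Prime := Fact.out
  obtain ⟨w, hw, hlt⟩ := D.exists_small
  have h1 := small_eq D hw hlt
  have h2 := small_ge D hw hlt (by rw [h1]; exact pow_pos hpp.pos u)
  rw [h1] at h2
  have hut : s = u + t := D.hut.symm
  have e1 : p ^ u * p ^ (s + t) = p ^ (2 * s) := by
    rw [← pow_add]
    congr 1
    omega
  have e2 : p ^ u * p ^ t = p ^ s := by rw [← pow_add, ← hut]
  have e3 : p ^ u * p ^ s ≤ p ^ (2 * s) := by
    rw [← pow_add]
    exact Nat.pow_le_pow_right hpp.pos (by omega)
  have e4 : p ^ (2 * s + 1) = p * p ^ (2 * s) := by rw [pow_succ]; ring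
  have h5 := D.hp
  have e5 : 5 * p ^ (2 * s) ≤ p * p ^ (2 * s) := Nat.mul_le_mul_right _ h5
  have e6 : 0 < p ^ (2 * s) := pow_pos hpp.pos _
  rw [mul_add, e1, e2, e4] at h2
  omega

theorem even_ne {p s : ℕ} [Fact p.Prime] (hp : 5 ≤ p) (hs : 1 ≤ s) (h3 : 3 * (s - 1) < p)
    {H K : Type*} [AddCommGroup H] [AddCommGroup K] (hH : Nat.card H = p ^ (2 * s))
    (hK : Nat.card K = p ^ (2 * s)) (f : H → K) (hf : IsPlanar f) :
    Nat.card (Set.range fun g : H × K => p • g) ≠ p ^ s := by
  intro hG
  have hpp : p.Prime := Fact.out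
  have : Finite H := Nat.finite_of_card_ne_zero (by rw [hH]; exact (pow_pos hpp.pos _).ne')
  have : Finite K := Nat.finite_of_card_ne_zero (by rw [hK]; exact (pow_pos hpp.pos _).ne')
  have := Fintype.ofFinite H
  have := Fintype.ofFinite K
  obtain ⟨u, hu⟩ := card_range_pow hH
  obtain ⟨t, ht⟩ := card_range_pow hK
  have hprod := card_range_prod (p := p) (H := H) (K := K)
  rw [hG, hu, ht, ← pow_add] at hprod
  have hut : u + t = s := (Nat.pow_right_injective hpp.two_le hprod).symm
  have key : ∀ {G : Type _} [AddCommGroup G] [Fintype G] [DecidableEq G],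
      (Finset.univ.image fun g : G => p • g).card = Nat.card (Set.range fun g : G => p • g) := by
    intro G _ _ _
    rw [← Set.ncard_coe_finset, Finset.coe_image, Finset.coe_univ, Set.image_univ,
      Nat.card_coe_set_eq]
  have key' : ∀ {G : Type _} [AddCommGroup G] [Fintype G] [DecidableEq G],
      (Finset.univ.image fun g : G => p • g).card = Nat.card (Set.range fun g : G => p • g) := by
    intro G _ _ _
    rw [← Set.ncard_coe_finset, Finset.coe_image, Finset.coe_univ, Set.image_univ,
      Nat.card_coe_set_eq]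
  have hH' : Fintype.card H = p ^ (2 * s) := by rw [← Nat.card_eq_fintype_card, hH]
  have hK' : Fintype.card K = p ^ (2 * s) := by rw [← Nat.card_eq_fintype_card, hK]
  have D : D2 p s t u f :=
    { hp := hp
      hs := hs
      h3 := h3
      hH := hH'
      hK := hK'
      hf := hf
      h2 := fun g => no_ex hp hs h3 hH' hK' hf hG g
      hu := by rw [← hu]; convert key (G := H)
      ht := by rw [← ht]; convert key' (G := K)
      hut := hut }
  exact no_D2 D

theorem even_lt {p s : ℕ} [Fact p.Prime] (hp : 5 ≤ p) (hs : 1 ≤ s) (h3 : 3 * (s - 1) < p)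
    {H K : Type*} [AddCommGroup H] [AddCommGroup K] (hH : Nat.card H = p ^ (2 * s))
    (hK : Nat.card K = p ^ (2 * s)) (f : H → K) (hf : IsPlanar f) :
    Nat.card (Set.range fun g : H × K => p • g) < p ^ s := by
  have hpp : p.Prime := Fact.out
  have : Finite H := Nat.finite_of_card_ne_zero (by rw [hH]; exact (pow_pos hpp.pos _).ne')
  have : Finite K := Nat.finite_of_card_ne_zero (by rw [hK]; exact (pow_pos hpp.pos _).ne')
  have hG : Nat.card (H × K) = p ^ (2 * (2 * s)) := by
    rw [Nat.card_prod, hH, hK, ← pow_add]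
    congr 1
    ring
  obtain ⟨κ, hκ⟩ := card_range_pow hG
  have hle : κ ≤ s := by
    have h := Pool.Agent.H38.RX.rank_C (by omega : p ≠ 2) hH hK f hf (by omega) hκ
    by_contra hlt
    obtain ⟨q, rfl⟩ : ∃ q, p = q + 1 := ⟨p - 1, by omega⟩
    rw [Nat.add_sub_cancel] at h
    have h1 : 2 * q * (s + 1) ≤ 2 * q * κ := Nat.mul_le_mul_left _ (by omega)
    have h2 : s ≤ q := by omega
    nlinarith
  have hne := even_ne hp hs h3 hH hK f hf
  rw [hκ] at hne ⊢
  refine Nat.pow_lt_pow_right hpp.one_lt (lt_of_le_of_ne hle ?_)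
  rintro rfl
  exact hne rfl

end Pool.Agent.H88.EV
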