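import Pool.Agent.H77.EV.Uni
import Pool.Agent.H38.PL3.Main3

/-!
# EV Strict (MP_460e77_co, helper88): the exponent bound from `strict` and ThreeLargest
-/

set_option autoImplicit false

namespace Pool.Agent.H88.EV

open Finset Pool.Agent.H16.RB Pool.Agent.H88.Pl
open scoped Classical

private theorem step {G : Type*} [AddCommGroup G] [Finite G] {p e i : ℕ} (hi : i + 1 ≤ e)
    (hexp : ∀ g : G, p ^ e • g = 0) :
    Nat.card (Set.range fun g : G => p ^ (i + 1) • g) *
      Nat.card (Set.range fun g : G => p ^ (e - 1) • g) ≤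
      Nat.card (Set.range fun g : G => p ^ i • g) := by
  rw [← Nat.card_prod]
  have hσ : ∀ z : Set.range fun g : G => p ^ (e - 1) • g, ∃ w : G, p ^ (e - 1) • w = z := by
    rintro ⟨_, w, rfl⟩
    exact ⟨w, rfl⟩
  choose σ hσ using hσ
  have hmem : ∀ y : Set.range (fun g : G => p ^ (i + 1) • g),
      ∀ z : Set.range (fun g : G => p ^ (e - 1) • g),
      (y : G) + p ^ i • σ z ∈ Set.range fun g : G => p ^ i • g := by
    rintro ⟨_, w, rfl⟩ z
    refine ⟨p • w + σ z, ?_⟩
    show p ^ i • (p • w + σ z) = p ^ (i + 1) • w + p ^ i • σ z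
    rw [smul_add, smul_smul, pow_succ]
  have hker : ∀ y : Set.range (fun g : G => p ^ (i + 1) • g), p ^ (e - 1 - i) • (y : G) = 0 := by
    rintro ⟨_, w, rfl⟩
    show p ^ (e - 1 - i) • p ^ (i + 1) • w = 0
    rw [smul_smul, ← pow_add, show e - 1 - i + (i + 1) = e by omega, hexp]
  have himg : ∀ z : Set.range (fun g : G => p ^ (e - 1) • g),
      p ^ (e - 1 - i) • p ^ i • σ z = (z : G) := by
    intro z
    rw [smul_smul, ← pow_add, show e - 1 - i + i = e - 1 by omega, hσ]
  refine Nat.card_le_card_of_injective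
    (fun yz => (⟨(yz.1 : G) + p ^ i • σ yz.2, hmem yz.1 yz.2⟩ :
      Set.range fun g : G => p ^ i • g)) ?_
  rintro ⟨y, z⟩ ⟨y', z'⟩ h
  have h1 : (y : G) + p ^ i • σ z = (y' : G) + p ^ i • σ z' := congrArg Subtype.val h
  have h2 := congrArg (fun g : G => p ^ (e - 1 - i) • g) h1
  simp only [smul_add, hker, himg, zero_add] at h2
  have h3 : z = z' := Subtype.ext h2
  subst h3
  exact Prod.ext (Subtype.ext (add_right_cancel h1)) rfl

/-- `|p G| ≥ |p ^ (e - 1) G| ^ (e - 1)` if `p ^ e G = 0` -/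
private theorem range_pow {G : Type*} [AddCommGroup G] [Finite G] {p e : ℕ} (he : 2 ≤ e)
    (hexp : ∀ g : G, p ^ e • g = 0) :
    Nat.card (Set.range fun g : G => p ^ (e - 1) • g) ^ (e - 1) ≤
      Nat.card (Set.range fun g : G => p • g) := by
  have h : ∀ j, j + 2 ≤ e → Nat.card (Set.range fun g : G => p ^ (e - 1) • g) ^ (j + 1) ≤
      Nat.card (Set.range fun g : G => p ^ (e - 1 - j) • g) := by
    intro j
    induction j with
    | zero => intro _; rw [zero_add, pow_one, Nat.sub_zero]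
    | succ j ih =>
      intro hj
      have h1 := ih (by omega)
      have h2 := step (G := G) (p := p) (e := e) (i := e - 1 - (j + 1)) (by omega) hexp
      rw [show e - 1 - (j + 1) + 1 = e - 1 - j by omega] at h2
      rw [pow_succ]
      exact (Nat.mul_le_mul_right _ h1).trans h2
  have h1 := h (e - 2) (by omega)
  rw [show e - 2 + 1 = e - 1 by omega, show e - 1 - (e - 2) = 1 by omega] at h1
  simpa only [pow_one] using h1

theorem exponent_dvd {p r : ℕ} [Fact p.Prime] (h3 : 3 ≤ r) (hpr : r ≤ p) {H K : Type*}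
    [AddCommGroup H] [AddCommGroup K] (hH : Nat.card H = p ^ r) (hK : Nat.card K = p ^ r)
    (f : H → K) (hf : IsPlanar f) :
    AddMonoid.exponent (H × K) ∣ p ^ (1 + (r - 2) / 6) := by
  have hpp : p.Prime := Fact.out
  have : Finite H := Nat.finite_of_card_ne_zero (by rw [hH]; exact (pow_pos hpp.pos _).ne')
  have : Finite K := Nat.finite_of_card_ne_zero (by rw [hK]; exact (pow_pos hpp.pos _).ne')
  have hG : Nat.card (H × K) = p ^ (2 * r) := by
    rw [Nat.card_prod, hH, hK, ← pow_add]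
    congr 1
    ring
  obtain ⟨e, -, he⟩ := (Nat.dvd_prime_pow hpp).1
    (show AddMonoid.exponent (H × K) ∣ p ^ (2 * r) by
      rw [← hG]; exact AddGroup.exponent_dvd_nat_card)
  rw [he]
  refine pow_dvd_pow p ?_
  by_contra hlt
  push Not at hlt
  have he2 : 2 ≤ e := by omega
  have hB := Pool.Agent.H38.PL3.main_C h3 he2 hH hK f hf he
  have hexp : ∀ g : H × K, p ^ e • g = 0 := by
    intro g
    rw [← he]
    exact AddMonoid.exponent_nsmul_eq_zero g
  have h1 := range_pow he2 hexp
  have h2 := Pool.Agent.H77.EV.strict h3 hpr hH hK f hf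
  have h4 : (p ^ 3) ^ (e - 1) < p ^ (r / 2) :=
    (Nat.pow_le_pow_left hB _).trans_lt (h1.trans_lt h2)
  rw [← pow_mul] at h4
  have h5 := (Nat.pow_lt_pow_iff_right hpp.one_lt).1 h4
  omega

end Pool.Agent.H88.EV
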